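import Mathlib

set_option autoImplicit false
set_option linter.unusedSectionVars false

/-!
# Symmetric bilinear forms over a principal ideal domain: splitting off unimodular pieces
-/

namespace Pool.Agent.Y359.RL

open LinearMap (BilinForm)
open Module

noncomputable section

section basic
variable {R : Type} [CommRing R]

/-- isometric forms -/
def Iso {M N : Type} [AddCommGroup M] [Module R M] [AddCommGroup N] [Module R N]
    (b : BilinForm R M) (c : BilinForm R N) : Prop :=
  ∃ e : M ≃ₗ[R] N, ∀ x y, c (e x) (e y) = b x y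

/-- orthogonal sum -/
def os {M N : Type} [AddCommGroup M] [Module R M] [AddCommGroup N] [Module R N]
    (b : BilinForm R M) (c : BilinForm R N) : BilinForm R (M × N) :=
  b.compl₁₂ (LinearMap.fst R M N) (LinearMap.fst R M N) +
    c.compl₁₂ (LinearMap.snd R M N) (LinearMap.snd R M N)

/-- the form of a matrix -/
def mf {ι : Type} [Fintype ι] [DecidableEq ι] (g : Matrix ι ι R) : BilinForm R (ι → R) :=
  Matrix.toBilin' g

lemma mf_apply {ι : Type} [Fintype ι] [DecidableEq ι] (g : Matrix ι ι R) (x y : ι → R) :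
    mf g x y = ∑ i, ∑ j, x i * g i j * y j := Matrix.toBilin'_apply g x y

variable {M N P Q : Type} [AddCommGroup M] [Module R M] [AddCommGroup N] [Module R N]
  [AddCommGroup P] [Module R P] [AddCommGroup Q] [Module R Q]

@[simp] lemma os_apply (b : BilinForm R M) (c : BilinForm R N) (x y : M × N) :
    os b c x y = b x.1 y.1 + c x.2 y.2 := rfl

lemma Iso.refl (b : BilinForm R M) : Iso b b := ⟨LinearEquiv.refl R M, fun _ _ => rfl⟩

lemma Iso.symm {b : BilinForm R M} {c : BilinForm R N} (h : Iso b c) : Iso c b := by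
  obtain ⟨e, he⟩ := h
  refine ⟨e.symm, fun x y => ?_⟩
  rw [← he, LinearEquiv.apply_symm_apply, LinearEquiv.apply_symm_apply]

lemma Iso.trans {b : BilinForm R M} {c : BilinForm R N} {d : BilinForm R P} (h : Iso b c)
    (h' : Iso c d) : Iso b d := by
  obtain ⟨e, he⟩ := h
  obtain ⟨e', he'⟩ := h'
  refine ⟨e.trans e', fun x y => ?_⟩
  rw [LinearEquiv.trans_apply, LinearEquiv.trans_apply, he', he]

lemma Iso.os {b : BilinForm R M} {c : BilinForm R N} {b' : BilinForm R P} {c' : BilinForm R Q}
    (h : Iso b b') (h' : Iso c c') : Iso (os b c) (os b' c') := by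
  obtain ⟨e, he⟩ := h
  obtain ⟨e', he'⟩ := h'
  refine ⟨e.prodCongr e', fun x y => ?_⟩
  simp only [os_apply, LinearEquiv.prodCongr_apply]
  rw [he, he']

lemma Iso.smul {b : BilinForm R M} {c : BilinForm R N} (h : Iso b c) (r : R) :
    Iso (r • b) (r • c) := by
  obtain ⟨e, he⟩ := h
  refine ⟨e, fun x y => ?_⟩
  simp only [LinearMap.smul_apply]
  rw [he]

/-- forms on modules of rank zero -/
lemma iso_of_subsingleton [Subsingleton M] [Subsingleton N] (b : BilinForm R M)
    (c : BilinForm R N) : Iso b c := by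
  refine ⟨⟨⟨⟨fun _ => 0, fun _ _ => by simp⟩, fun _ _ => by simp⟩, fun _ => 0,
    fun _ => Subsingleton.elim _ _, fun _ => Subsingleton.elim _ _⟩, fun x y => ?_⟩
  rw [Subsingleton.elim x 0, map_zero, map_zero, LinearMap.zero_apply, map_zero,
    LinearMap.zero_apply]

/-- a submodule which splits off -/
def orth {k : ℕ} (b : BilinForm R M) (x : Fin k → M) : Submodule R M where
  carrier := {m | ∀ i, b (x i) m = 0}
  add_mem' := by
    intro m m' h h' i
    rw [map_add, h i, h' i, add_zero]
  zero_mem' := by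
    intro i
    exact map_zero _
  smul_mem' := by
    intro r m h i
    rw [map_smul, h i, smul_zero]

/-- restriction of a form -/
def rs (b : BilinForm R M) (S : Submodule R M) : BilinForm R S :=
  b.compl₁₂ S.subtype S.subtype

@[simp] lemma rs_apply (b : BilinForm R M) (S : Submodule R M) (x y : S) :
    rs b S x y = b x y := rfl

/-- **Splitting off a unimodular part.** -/
theorem split {k : ℕ} (b : BilinForm R M) (hb : ∀ x y, b x y = b y x) (x : Fin k → M)
    (g : Matrix (Fin k) (Fin k) R) (hg : IsUnit g.det) (hx : ∀ i j, b (x i) (x j) = g i j) :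
    Iso (os (mf g) (rs b (orth b x))) b := by
  set f : ((Fin k → R) × orth b x) →ₗ[R] M :=
    (Fintype.linearCombination R x).coprod (orth b x).subtype with hf
  have hfa : ∀ c n, f (c, n) = ∑ i, c i • x i + (n : M) := by
    intro c n
    rw [hf, LinearMap.coprod_apply, Fintype.linearCombination_apply]
    rfl
  have hbx : ∀ c n j, b (x j) (f (c, n)) = (g.mulVec c) j := by
    intro c n j
    rw [hfa, map_add, map_sum, n.2 j, add_zero]
    unfold Matrix.mulVec dotProduct
    refine Finset.sum_congr rfl fun i _ => ?_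
    rw [map_smul, hx, smul_eq_mul, mul_comm]
  have hinj : Function.Injective f := by
    rw [← LinearMap.ker_eq_bot, LinearMap.ker_eq_bot']
    rintro ⟨c, n⟩ h
    have h1 : g.mulVec c = 0 := by
      funext j
      rw [← hbx c n j, h, map_zero]
      rfl
    have hc : c = 0 := by
      have h2 : g⁻¹.mulVec (g.mulVec c) = 0 := by rw [h1, Matrix.mulVec_zero]
      rwa [Matrix.mulVec_mulVec, Matrix.nonsing_inv_mul _ hg, Matrix.one_mulVec] at h2
    subst hc
    rw [hfa] at h
    simp only [Pi.zero_apply, zero_smul, Finset.sum_const_zero, zero_add] at h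
    rw [Prod.mk_eq_zero]
    exact ⟨rfl, Subtype.ext h⟩
  have hsurj : Function.Surjective f := by
    intro m
    set c : Fin k → R := g⁻¹.mulVec (fun j => b (x j) m) with hc
    have hgc : g.mulVec c = fun j => b (x j) m := by
      rw [hc, Matrix.mulVec_mulVec, Matrix.mul_nonsing_inv _ hg, Matrix.one_mulVec]
    have hn : m - ∑ i, c i • x i ∈ orth b x := by
      intro j
      have h1 := hbx c 0 j
      rw [hfa, hgc] at h1
      simp only [Submodule.coe_zero, add_zero] at h1
      rw [map_sub, h1, sub_self]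
    refine ⟨(c, ⟨_, hn⟩), ?_⟩
    rw [hfa]
    simp
  have hbij : Function.Bijective f := ⟨hinj, hsurj⟩
  refine ⟨LinearEquiv.ofBijective f hbij, ?_⟩
  rintro ⟨c, n⟩ ⟨c', n'⟩
  show b (f (c, n)) (f (c', n')) = mf g c c' + b n n'
  have h1 : b (f (c, n)) (f (c', n')) = ∑ i, c i * b (x i) (f (c', n')) + b n (f (c', n')) := by
    conv_lhs => rw [hfa c n]
    rw [map_add, LinearMap.add_apply, map_sum, LinearMap.sum_apply]
    congr 1
    refine Finset.sum_congr rfl fun i _ => ?_
    rw [map_smul, LinearMap.smul_apply, smul_eq_mul]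
  have h2 : b n (f (c', n')) = b n n' := by
    rw [hfa, map_add, map_sum]
    have h3 : ∑ i, b (n : M) (c' i • x i) = 0 := by
      refine Finset.sum_eq_zero fun i _ => ?_
      rw [map_smul, hb, n.2 i, smul_zero]
    rw [h3, zero_add]
  rw [h1, h2, mf_apply]
  congr 1
  refine Finset.sum_congr rfl fun i _ => ?_
  rw [hbx]
  unfold Matrix.mulVec dotProduct
  rw [Finset.mul_sum]
  exact Finset.sum_congr rfl fun j _ => by ring

/-- the determinant of a Gram matrix -/
def HasDet (b : BilinForm R M) (d : R) : Prop :=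
  ∃ (ι : Type) (_ : Fintype ι) (_ : DecidableEq ι) (v : Basis ι R M),
    (Matrix.of fun i j => b (v i) (v j)).det = d

lemma HasDet.iso {b : BilinForm R M} {c : BilinForm R N} {d : R} (h : HasDet b d)
    (hi : Iso b c) : HasDet c d := by
  obtain ⟨ι, _, _, v, hv⟩ := h
  obtain ⟨e, he⟩ := hi
  refine ⟨ι, inferInstance, inferInstance, v.map e, ?_⟩
  rw [← hv]
  congr 1
  ext i j
  simp only [Matrix.of_apply, Basis.map_apply]
  exact he _ _

lemma HasDet.os {b : BilinForm R M} {c : BilinForm R N} {d d' : R} (h : HasDet b d)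
    (h' : HasDet c d') : HasDet (os b c) (d * d') := by
  obtain ⟨ι, _, _, v, hv⟩ := h
  obtain ⟨κ, _, _, w, hw⟩ := h'
  refine ⟨ι ⊕ κ, inferInstance, inferInstance, v.prod w, ?_⟩
  rw [← hv, ← hw, ← Matrix.det_fromBlocks_zero₂₁ _ 0]
  congr 1
  ext i j
  rcases i with i | i <;> rcases j with j | j <;>
    simp [os_apply]

lemma hasDet_mf {ι : Type} [Fintype ι] [DecidableEq ι] (g : Matrix ι ι R) :
    HasDet (mf g) g.det := by
  refine ⟨ι, inferInstance, inferInstance, Pi.basisFun R ι, ?_⟩
  congr 1
  ext i j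
  rw [Matrix.of_apply, Pi.basisFun_apply, Pi.basisFun_apply]
  exact Matrix.toBilin'_single g i j

lemma HasDet.unique [Nontrivial R] {b : BilinForm R M} {d d' : R} (h : HasDet b d)
    (h' : HasDet b d') : ∃ u : R, IsUnit u ∧ d' = d * u ^ 2 := by
  obtain ⟨ι, _, _, v, hv⟩ := h
  obtain ⟨κ, _, _, w, hw⟩ := h'
  let σ : ι ≃ κ := v.indexEquiv w
  let w' : Basis ι R M := w.reindex σ.symm
  have h1 : (Matrix.of fun i j => b (w' i) (w' j)).det = d' := by
    rw [← hw, ← Matrix.det_submatrix_equiv_self σ]
    congr 1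
    ext i j
    simp [w']
  have h2 : (Matrix.of fun i j => b (w' i) (w' j)) =
      (v.toMatrix w').transpose * (Matrix.of fun i j => b (v i) (v j)) * v.toMatrix w' := by
    have h3 := LinearMap.BilinForm.toMatrix_mul_basis_toMatrix v w' b
    have h4 : LinearMap.BilinForm.toMatrix v b = Matrix.of fun i j => b (v i) (v j) := by
      ext i j
      rw [LinearMap.BilinForm.toMatrix_apply, Matrix.of_apply]
    have h5 : LinearMap.BilinForm.toMatrix w' b = Matrix.of fun i j => b (w' i) (w' j) := by
      ext i j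
      rw [LinearMap.BilinForm.toMatrix_apply, Matrix.of_apply]
    rw [← h4, ← h5, ← h3]
  refine ⟨(v.toMatrix w').det, ?_, ?_⟩
  · exact Matrix.isUnit_det_of_left_inverse (Basis.toMatrix_mul_toMatrix_flip w' v)
  · rw [← h1, h2, Matrix.det_mul, Matrix.det_mul, Matrix.det_transpose, hv]
    ring

end basic

end

end Pool.Agent.Y359.RL
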