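import Pool.Agent.Y359.RL.Odd
import Pool.Agent.Y813.RL.Stm

set_option autoImplicit false
set_option linter.unusedSectionVars false

/-!
# The discriminant form determines the genus (JobGenus)
-/

namespace Pool.Agent.Y359.RL

open LinearMap (BilinForm)
open Module
open Pool.Agent.Y813.RL (bf bd PosSymm SameGenus gramEED JobGenus)

noncomputable section

section int
variable {ι : Type} [Fintype ι] [DecidableEq ι] {R : Type} [CommRing R]

/-- base change of an integral form -/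
def bz (R : Type) [CommRing R] (B : Matrix ι ι ℤ) : BilinForm R (ι → R) :=
  mf (B.map (Int.cast : ℤ → R))

lemma bz_apply (B : Matrix ι ι ℤ) (x y : ι → R) : bz R B x y = bf B x y := by
  unfold bz
  rw [mf_apply]
  rfl

lemma bz_symm {B : Matrix ι ι ℤ} (hB : B.IsSymm) (x y : ι → R) : bz R B x y = bz R B y x := by
  rw [bz_apply, bz_apply]
  unfold bf
  rw [Finset.sum_comm]
  refine Finset.sum_congr rfl fun i _ => Finset.sum_congr rfl fun j _ => ?_
  rw [hB.apply i j]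
  ring

lemma bz_det (B : Matrix ι ι ℤ) : HasDet (bz R B) (B.det : R) := by
  have h := hasDet_mf (B.map (Int.cast : ℤ → R))
  have h1 : (B.map (Int.cast : ℤ → R)).det = (B.det : R) := (Int.cast_det B).symm
  rw [h1] at h
  exact h

lemma bz_even {B : Matrix ι ι ℤ} (hB : B.IsSymm) (he : ∀ i, Even (B i i)) (x : ι → R) :
    ∃ t, bz R B x x = 2 * t := by
  have key : ∀ s : Finset ι, ∃ t, ∑ i ∈ s, ∑ j ∈ s, x i * (B i j : R) * x j = 2 * t := by
    intro s
    induction s using Finset.induction_on with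
    | empty => exact ⟨0, by simp⟩
    | insert a s ha ih =>
      obtain ⟨t, ht⟩ := ih
      obtain ⟨r, hr⟩ := he a
      refine ⟨x a * r * x a + ∑ j ∈ s, x a * (B a j : R) * x j + t, ?_⟩
      rw [Finset.sum_insert ha, Finset.sum_insert ha]
      have h1 : ∑ i ∈ s, ∑ j ∈ insert a s, x i * (B i j : R) * x j =
          ∑ j ∈ s, x a * (B a j : R) * x j + ∑ i ∈ s, ∑ j ∈ s, x i * (B i j : R) * x j := by
        rw [← Finset.sum_add_distrib]
        refine Finset.sum_congr rfl fun i _ => ?_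
        rw [Finset.sum_insert ha, hB.apply a i]
        ring
      rw [h1, ht, hr]
      push_cast
      ring
  rw [bz_apply]
  exact key Finset.univ

lemma finrank_fun_card [Nontrivial R] [StrongRankCondition R] :
    finrank R (ι → R) = Fintype.card ι := finrank_fintype_fun_eq_card R

/-- the condition on the dual vectors -/
def H2 (B : Matrix ι ι ℤ) : Prop := ∀ x : ι → ℤ, (∀ i, (2:ℤ) ∣ B.mulVec x i) →
  (∃ i, ¬ (2:ℤ) ∣ x i) → ∃ k : ℤ, bf B x x = 4 * (2 * k + 1)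

lemma two_dvd_int (n : ℤ) : (2 : ℤ_[2]) ∣ (n : ℤ_[2]) ↔ (2:ℤ) ∣ n := by
  have h1 := PadicInt.norm_int_lt_one_iff_dvd (p := 2) n
  have h2 := PadicInt.norm_lt_one_iff_dvd (p := 2) (n : ℤ_[2])
  rw [h2] at h1
  exact_mod_cast h1

lemma approx (x : ℤ_[2]) : ∃ (n : ℤ) (z : ℤ_[2]), x = n + 8 * z := by
  have h := PadicInt.appr_spec 3 x
  rw [Ideal.mem_span_singleton] at h
  obtain ⟨z, hz⟩ := h
  refine ⟨(x.appr 3 : ℕ), z, ?_⟩
  push_cast at hz ⊢
  linear_combination hz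

lemma bz_cast (B : Matrix ι ι ℤ) (x y : ι → ℤ) :
    bz R B (fun i => (x i : R)) (fun i => (y i : R)) = ((bf B x y : ℤ) : R) := by
  rw [bz_apply]
  unfold bf
  push_cast
  rfl

theorem good_of_int {B : Matrix ι ι ℤ} (hB : B.IsSymm) (he : ∀ i, Even (B i i)) (h2 : H2 B) :
    Good (bz ℤ_[2] B) := by
  refine ⟨bz_symm hB, bz_even hB he, fun x hx hz => ?_⟩
  choose n z hnz using fun i => approx (x i)
  have hxe : x = (fun i => (n i : ℤ_[2])) + (8 : ℤ_[2]) • z := by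
    funext i
    rw [Pi.add_apply, Pi.smul_apply, smul_eq_mul]
    exact hnz i
  have h1 : ∀ i, (2:ℤ) ∣ B.mulVec n i := by
    intro i
    have h3 := hx (Pi.single i 1)
    rw [bz_symm hB] at h3
    have h4 : bz ℤ_[2] B (Pi.single i 1) x = ((B.mulVec n i : ℤ) : ℤ_[2]) +
        2 * (4 * bz ℤ_[2] B (Pi.single i 1) z) := by
      rw [hxe, map_add, map_smul, smul_eq_mul]
      have h5 : bz ℤ_[2] B (Pi.single i 1) (fun i => (n i : ℤ_[2])) =
          ((B.mulVec n i : ℤ) : ℤ_[2]) := by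
        rw [bz_apply]
        unfold bf
        rw [Finset.sum_eq_single i (fun j _ hj => by
          rw [Pi.single_eq_of_ne hj]; simp) (fun h => absurd (Finset.mem_univ i) h)]
        rw [Pi.single_eq_same]
        unfold Matrix.mulVec dotProduct
        push_cast
        exact Finset.sum_congr rfl fun j _ => by ring
      rw [h5]
      ring
    rw [h4] at h3
    rw [← two_dvd_int]
    exact (dvd_add_left ⟨_, rfl⟩).1 h3
  have h3 : ∃ i, ¬ (2:ℤ) ∣ n i := by
    by_contra hcon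
    push Not at hcon
    choose m hm using hcon
    refine hz ⟨fun i => (m i : ℤ_[2]) + 4 * z i, ?_⟩
    funext i
    rw [Pi.smul_apply, smul_eq_mul, hnz i, hm i]
    push_cast
    ring
  obtain ⟨k, hk⟩ := h2 n h1 h3
  refine ⟨k + 2 * bz ℤ_[2] B (fun i => (n i : ℤ_[2])) z + 8 * bz ℤ_[2] B z z, ?_⟩
  rw [hxe]
  simp only [map_add, map_smul, LinearMap.add_apply, LinearMap.smul_apply, smul_eq_mul]
  rw [bz_symm hB z (fun i => (n i : ℤ_[2])), bz_cast, hk]
  push_cast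
  ring

end int

section EED

/-- inverse of the Cartan matrix `E_8` -/
def H8 : Matrix (Fin 8) (Fin 8) ℤ :=
  !![4, 5, 7, 10, 8, 6, 4, 2; 5, 8, 10, 15, 12, 9, 6, 3; 7, 10, 14, 20, 16, 12, 8, 4;
    10, 15, 20, 30, 24, 18, 12, 6; 8, 12, 16, 24, 20, 15, 10, 5; 6, 9, 12, 18, 15, 12, 8, 4;
    4, 6, 8, 12, 10, 8, 6, 3; 2, 3, 4, 6, 5, 4, 3, 2]

/-- twice the simple roots -/
def T8 : Matrix (Fin 8) (Fin 8) ℤ :=
  !![1, 2, -2, 0, 0, 0, 0, 0; -1, 2, 2, -2, 0, 0, 0, 0; -1, 0, 0, 2, -2, 0, 0, 0;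
    -1, 0, 0, 0, 2, -2, 0, 0; -1, 0, 0, 0, 0, 2, -2, 0; -1, 0, 0, 0, 0, 0, 2, -2;
    -1, 0, 0, 0, 0, 0, 0, 2; 1, 0, 0, 0, 0, 0, 0, 0]

def H4 : Matrix (Fin 4) (Fin 4) ℤ := !![2, 2, 1, 1; 2, 4, 2, 2; 1, 2, 2, 1; 1, 2, 1, 2]

def T4 : Matrix (Fin 4) (Fin 4) ℤ := !![1, 0, 0, 0; -1, 1, 0, 0; 0, -1, 1, 1; 0, 0, -1, 1]

lemma H8_mul : H8 * CartanMatrix.E₈ = 1 := by decide +kernel
lemma T8_mul : T8.transpose * T8 = (4:ℤ) • CartanMatrix.E₈ := by decide +kernel
lemma H4_mul : H4 * CartanMatrix.D 4 = (2:ℤ) • (1 : Matrix (Fin 4) (Fin 4) ℤ) := by decide +kernel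
lemma T4_mul : T4.transpose * T4 = (1:ℤ) • CartanMatrix.D 4 := by decide +kernel
lemma D4_det : (CartanMatrix.D 4).det = 4 := by decide +kernel

/-- positive definiteness from an integral Gram matrix -/
lemma posdef_of_gram {ι : Type} [Fintype ι] [DecidableEq ι] (B T H : Matrix ι ι ℤ) (c e : ℤ)
    (hc : 0 < c) (he : 0 < e) (hT : T.transpose * T = c • B) (hH : H * B = e • 1) (x : ι → ℝ) :
    0 ≤ bf B x x ∧ (bf B x x = 0 → x = 0) := by
  set Tr : Matrix ι ι ℝ := T.map (Int.cast : ℤ → ℝ) with hTr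
  set Br : Matrix ι ι ℝ := B.map (Int.cast : ℤ → ℝ) with hBr
  set Hr : Matrix ι ι ℝ := H.map (Int.cast : ℤ → ℝ) with hHr
  have hT' : Tr.transpose * Tr = (c:ℝ) • Br := by
    have h1 := congrArg (fun A : Matrix ι ι ℤ => A.map (Int.castRingHom ℝ)) hT
    simp only [Matrix.map_mul] at h1
    rw [hTr, hBr]
    refine Eq.trans ?_ (h1.trans ?_)
    · rfl
    · ext i j
      show (((c • B) i j : ℤ) : ℝ) = (c:ℝ) * (B i j : ℝ)
      rw [Matrix.smul_apply, smul_eq_mul, Int.cast_mul]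
  have hH' : Hr * Br = (e:ℝ) • 1 := by
    have h1 := congrArg (fun A : Matrix ι ι ℤ => A.map (Int.castRingHom ℝ)) hH
    simp only [Matrix.map_mul] at h1
    rw [hHr, hBr]
    refine Eq.trans ?_ (h1.trans ?_)
    · rfl
    · ext i j
      show (((e • (1 : Matrix ι ι ℤ)) i j : ℤ) : ℝ) = (e:ℝ) * ((1 : Matrix ι ι ℝ) i j)
      rw [Matrix.smul_apply, smul_eq_mul, Int.cast_mul]
      congr 1
      by_cases hij : i = j
      · subst hij; simp
      · simp [Matrix.one_apply_ne hij]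
  have hc' : (0:ℝ) < c := by exact_mod_cast hc
  have he' : (0:ℝ) < e := by exact_mod_cast he
  have hbf : bf B x x = x ⬝ᵥ Br.mulVec x := by
    unfold bf dotProduct Matrix.mulVec dotProduct
    refine Finset.sum_congr rfl fun i _ => ?_
    rw [Finset.mul_sum]
    refine Finset.sum_congr rfl fun j _ => ?_
    show x i * (B i j : ℝ) * x j = x i * ((B i j : ℝ) * x j)
    ring
  have hq : (c:ℝ) * bf B x x = Tr.mulVec x ⬝ᵥ Tr.mulVec x := by
    rw [Matrix.dotProduct_mulVec (Tr.mulVec x) Tr x, ← Matrix.mulVec_transpose,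
      Matrix.mulVec_mulVec, hT', Matrix.smul_mulVec, smul_dotProduct, smul_eq_mul, hbf,
      dotProduct_comm]
  have hnn : 0 ≤ Tr.mulVec x ⬝ᵥ Tr.mulVec x := by
    unfold dotProduct
    exact Finset.sum_nonneg fun i _ => mul_self_nonneg _
  constructor
  · by_contra hneg
    push Not at hneg
    have := mul_neg_of_pos_of_neg hc' hneg
    rw [hq] at this
    linarith
  · intro h0
    rw [h0, mul_zero] at hq
    have hT0 : Tr.mulVec x = 0 := dotProduct_self_eq_zero.1 hq.symm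
    have hB0 : (c:ℝ) • Br.mulVec x = 0 := by
      rw [← Matrix.smul_mulVec, ← hT', ← Matrix.mulVec_mulVec, hT0, Matrix.mulVec_zero]
    have hB1 : Br.mulVec x = 0 := (smul_eq_zero.1 hB0).resolve_left hc'.ne'
    have hx : (e:ℝ) • x = 0 := by
      have h2 : Hr.mulVec (Br.mulVec x) = (e:ℝ) • x := by
        rw [Matrix.mulVec_mulVec, hH', Matrix.smul_mulVec, Matrix.one_mulVec]
      rw [← h2, hB1, Matrix.mulVec_zero]
    exact (smul_eq_zero.1 hx).resolve_left he'.ne'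

lemma bf_blocks {ι κ R : Type} [Fintype ι] [Fintype κ] [CommRing R] (A : Matrix ι ι ℤ)
    (B : Matrix κ κ ℤ) (x : ι ⊕ κ → R) : bf (Matrix.fromBlocks A 0 0 B) x x =
      bf A (fun i => x (Sum.inl i)) (fun i => x (Sum.inl i)) +
      bf B (fun i => x (Sum.inr i)) (fun i => x (Sum.inr i)) := by
  unfold bf
  simp [Fintype.sum_sum_type]

lemma gram_pos (x : Fin 8 ⊕ (Fin 8 ⊕ Fin 4) → ℝ) (hx : x ≠ 0) : 0 < bf gramEED x x := by
  unfold gramEED
  rw [bf_blocks, bf_blocks]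
  have h1 := posdef_of_gram CartanMatrix.E₈ T8 H8 4 1 (by norm_num) (by norm_num) T8_mul
    (by rw [H8_mul, one_smul]) (fun i => x (Sum.inl i))
  have h2 := posdef_of_gram CartanMatrix.E₈ T8 H8 4 1 (by norm_num) (by norm_num) T8_mul
    (by rw [H8_mul, one_smul]) (fun i => x (Sum.inr (Sum.inl i)))
  have h3 := posdef_of_gram (CartanMatrix.D 4) T4 H4 1 2 (by norm_num) (by norm_num) T4_mul
    H4_mul (fun i => x (Sum.inr (Sum.inr i)))
  by_contra hcon
  push Not at hcon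
  have e1 := h1.2 (by linarith [h1.1, h2.1, h3.1])
  have e2 := h2.2 (by linarith [h1.1, h2.1, h3.1])
  have e3 := h3.2 (by linarith [h1.1, h2.1, h3.1])
  apply hx
  funext i
  rcases i with i | i | i
  · exact congrFun e1 i
  · exact congrFun e2 i
  · exact congrFun e3 i

lemma E8_det : CartanMatrix.E₈.det = 1 := by
  have h1 : H8.det * CartanMatrix.E₈.det = 1 := by
    rw [← Matrix.det_mul, H8_mul, Matrix.det_one]
  have h2 : T8.det * T8.det = 4 ^ 8 * CartanMatrix.E₈.det := by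
    have := congrArg Matrix.det T8_mul
    rw [Matrix.det_mul, Matrix.det_transpose, Matrix.det_smul, Fintype.card_fin] at this
    exact this
  rcases Int.isUnit_iff.1 (IsUnit.of_mul_eq_one _ (by rw [mul_comm]; exact h1)) with h3 | h3
  · exact h3
  · rw [h3] at h2
    nlinarith [mul_self_nonneg T8.det]

lemma gram_det : gramEED.det = 4 := by
  unfold gramEED
  rw [Matrix.det_fromBlocks_zero₂₁, Matrix.det_fromBlocks_zero₂₁, E8_det, D4_det]
  norm_num

lemma gram_symm : gramEED.IsSymm := by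
  unfold gramEED
  exact Matrix.IsSymm.fromBlocks CartanMatrix.E₈_isSymm (by simp)
    (Matrix.IsSymm.fromBlocks CartanMatrix.E₈_isSymm (by simp) (CartanMatrix.D_isSymm 4))

lemma gram_even : ∀ i, Even (gramEED i i) := by
  intro i
  unfold gramEED
  rcases i with i | i | i
  · simp
  · simp
  · simp

lemma E8_even (x : Fin 8 → ℤ) (h : ∀ i, (2:ℤ) ∣ CartanMatrix.E₈.mulVec x i) :
    (∀ i, (2:ℤ) ∣ x i) ∧ ∃ t : ℤ, bf CartanMatrix.E₈ x x = 8 * t := by
  have h1 : ∀ i, (2:ℤ) ∣ x i := by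
    intro i
    have h2 : x = H8.mulVec (CartanMatrix.E₈.mulVec x) := by
      rw [Matrix.mulVec_mulVec, H8_mul, Matrix.one_mulVec]
    rw [h2]
    unfold Matrix.mulVec dotProduct
    exact Finset.dvd_sum fun j _ => Dvd.dvd.mul_left (h j) _
  refine ⟨h1, ?_⟩
  choose y hy using h1
  obtain ⟨t, ht⟩ := bz_even (R := ℤ) CartanMatrix.E₈_isSymm
    (fun i => by rw [CartanMatrix.E₈_diag]; exact even_two) y
  rw [bz_apply] at ht
  refine ⟨t, ?_⟩
  have hx : x = fun i => 2 * y i := funext hy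
  have h3 : bf CartanMatrix.E₈ x x = 4 * bf CartanMatrix.E₈ y y := by
    rw [hx]
    unfold bf
    rw [Finset.mul_sum]
    refine Finset.sum_congr rfl fun i _ => ?_
    rw [Finset.mul_sum]
    exact Finset.sum_congr rfl fun j _ => by ring
  rw [h3, ht]
  ring

lemma D4_H2 (x : Fin 4 → ℤ) (h : ∀ i, (2:ℤ) ∣ (CartanMatrix.D 4).mulVec x i) :
    (∀ i, (2:ℤ) ∣ x i) ∨ ∃ k : ℤ, bf (CartanMatrix.D 4) x x = 4 * (2 * k + 1) := by
  have h0 := h 0
  have h1 := h 1
  rw [CartanMatrix.D_four] at h0 h1 ⊢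
  simp [Matrix.mulVec, dotProduct, Fin.sum_univ_four] at h0 h1
  have hbf : bf (!![2, -1, 0, 0; -1, 2, -1, -1; 0, -1, 2, 0; 0, -1, 0, 2] :
      Matrix (Fin 4) (Fin 4) ℤ) x x = 2 * (x 0 ^ 2 + x 1 ^ 2 + x 2 ^ 2 + x 3 ^ 2) -
      2 * x 1 * (x 0 + x 2 + x 3) := by
    unfold bf
    simp [Fin.sum_univ_four]
    ring
  rw [hbf]
  obtain ⟨y, hy⟩ : (2:ℤ) ∣ x 1 := by omega
  obtain ⟨s, hs⟩ : (2:ℤ) ∣ x 0 + x 2 + x 3 := by omega
  rcases Int.even_or_odd' (x 0) with ⟨a, ha | ha⟩ <;>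
    rcases Int.even_or_odd' (x 2) with ⟨b, hb | hb⟩ <;>
    rcases Int.even_or_odd' (x 3) with ⟨c, hc | hc⟩
  · left
    intro i
    fin_cases i
    · exact ⟨a, ha⟩
    · exact ⟨y, hy⟩
    · exact ⟨b, hb⟩
    · exact ⟨c, hc⟩
  · omega
  · omega
  · right
    refine ⟨a ^ 2 + b ^ 2 + b + c ^ 2 + c + y ^ 2 - y * s, ?_⟩
    rw [hs, hy, ha, hb, hc]; ring
  · omega
  · right
    refine ⟨a ^ 2 + a + b ^ 2 + c ^ 2 + c + y ^ 2 - y * s, ?_⟩
    rw [hs, hy, ha, hb, hc]; ring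
  · right
    refine ⟨a ^ 2 + a + b ^ 2 + b + c ^ 2 + y ^ 2 - y * s, ?_⟩
    rw [hs, hy, ha, hb, hc]; ring
  · omega

lemma gram_H2 : H2 gramEED := by
  intro x hx hodd
  have e1 : ∀ i, (2:ℤ) ∣ CartanMatrix.E₈.mulVec (fun i => x (Sum.inl i)) i := by
    intro i
    have := hx (Sum.inl i)
    unfold gramEED at this
    simpa [Matrix.mulVec, dotProduct, Fintype.sum_sum_type] using this
  have e2 : ∀ i, (2:ℤ) ∣ CartanMatrix.E₈.mulVec (fun i => x (Sum.inr (Sum.inl i))) i := by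
    intro i
    have := hx (Sum.inr (Sum.inl i))
    unfold gramEED at this
    simpa [Matrix.mulVec, dotProduct, Fintype.sum_sum_type] using this
  have e3 : ∀ i, (2:ℤ) ∣ (CartanMatrix.D 4).mulVec (fun i => x (Sum.inr (Sum.inr i))) i := by
    intro i
    have := hx (Sum.inr (Sum.inr i))
    unfold gramEED at this
    simpa [Matrix.mulVec, dotProduct, Fintype.sum_sum_type] using this
  obtain ⟨f1, t1, ht1⟩ := E8_even _ e1
  obtain ⟨f2, t2, ht2⟩ := E8_even _ e2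
  unfold gramEED
  rw [bf_blocks, bf_blocks, ht1, ht2]
  rcases D4_H2 _ e3 with h | ⟨k, hk⟩
  · exfalso
    obtain ⟨i, hi⟩ := hodd
    rcases i with i | i | i
    · exact hi (f1 i)
    · exact hi (f2 i)
    · exact hi (h i)
  · rw [hk]
    exact ⟨t1 + t2 + k, by ring⟩

end EED

section G
variable {G : Matrix (Fin 20) (Fin 20) ℤ}

lemma card_idx : Fintype.card (Fin 8 ⊕ (Fin 8 ⊕ Fin 4)) = 20 := by
  simp [Fintype.card_sum]

lemma real_part (hP : PosSymm G) : Iso (bz ℝ G) (bz ℝ gramEED) := by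
  refine real_iso 20 _ _ _ _ (bz_symm hP.symm) (bz_symm gram_symm) (fun x hx => ?_)
    (fun x hx => ?_) ?_ ?_
  · rw [bz_apply]; exact hP.pos x hx
  · rw [bz_apply]; exact gram_pos x hx
  · rw [finrank_fun_card, Fintype.card_fin]
  · rw [finrank_fun_card, card_idx]

lemma det_pos (hP : PosSymm G) : 0 < G.det := by
  have h1 := (bz_det (R := ℝ) G).iso (real_part hP)
  have h2 := bz_det (R := ℝ) gramEED
  obtain ⟨u, hu, he⟩ := h1.unique h2
  rw [gram_det] at he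
  have h3 : (0:ℝ) < (G.det : ℝ) * u ^ 2 := by rw [← he]; norm_num
  have h4 : (0:ℝ) < (G.det : ℝ) := by
    by_contra hcon
    push Not at hcon
    have := mul_nonpos_of_nonpos_of_nonneg hcon (sq_nonneg u)
    linarith
  exact_mod_cast h4

lemma real_det (G : Matrix (Fin 20) (Fin 20) ℤ) :
    (G.map (Int.cast : ℤ → ℝ)).det = (G.det : ℝ) := (Int.cast_det G).symm

lemma mulVec_cast (G : Matrix (Fin 20) (Fin 20) ℤ) (x : Fin 20 → ℤ) :
    (G.map (Int.cast : ℤ → ℝ)).mulVec (fun i => (x i : ℝ)) =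
      fun i => ((G.mulVec x i : ℤ) : ℝ) := by
  funext i
  unfold Matrix.mulVec dotProduct
  push_cast
  rfl

lemma bd_of (hP : PosSymm G) (x μ : Fin 20 → ℤ) (h : G.mulVec x = fun i => 2 * μ i) :
    4 * bd G μ μ = ((bf G x x : ℤ) : ℝ) := by
  have hdet : IsUnit (G.map (Int.cast : ℤ → ℝ)).det := by
    rw [real_det]
    exact (Int.cast_ne_zero.2 (det_pos hP).ne').isUnit
  have h1 : (G.map (Int.cast : ℤ → ℝ))⁻¹.mulVec (fun j => (μ j : ℝ)) =
      fun i => (x i : ℝ) / 2 := by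
    have h2 : (fun j => (μ j : ℝ)) = (G.map (Int.cast : ℤ → ℝ)).mulVec (fun i => (x i : ℝ) / 2) := by
      have h3 : (fun i => (x i : ℝ) / 2) = (1 / 2 : ℝ) • (fun i => (x i : ℝ)) := by
        funext i
        rw [Pi.smul_apply, smul_eq_mul]
        ring
      rw [h3, Matrix.mulVec_smul, mulVec_cast, h]
      funext i
      rw [Pi.smul_apply, smul_eq_mul]
      push_cast
      ring
    rw [h2, Matrix.mulVec_mulVec, Matrix.nonsing_inv_mul _ hdet, Matrix.one_mulVec]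
  unfold bd
  rw [h1, Finset.mul_sum]
  have h4 : ((bf G x x : ℤ) : ℝ) = ∑ i, (x i : ℝ) * ((G.mulVec x i : ℤ) : ℝ) := by
    unfold bf Matrix.mulVec dotProduct
    push_cast
    refine Finset.sum_congr rfl fun i _ => ?_
    rw [Finset.mul_sum]
    exact Finset.sum_congr rfl fun j _ => by ring
  rw [h4]
  refine Finset.sum_congr rfl fun i _ => ?_
  rw [h]
  push_cast
  ring

lemma bd_two (G : Matrix (Fin 20) (Fin 20) ℤ) (μ : Fin 20 → ℤ) :
    bd G (fun i => 2 * μ i) (fun i => 2 * μ i) = 4 * bd G μ μ := by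
  unfold bd
  have h1 : (fun j => ((2 * μ j : ℤ) : ℝ)) = (2 : ℝ) • (fun j => (μ j : ℝ)) := by
    funext j
    rw [Pi.smul_apply, smul_eq_mul]
    push_cast
    ring
  rw [h1, Matrix.mulVec_smul, Finset.mul_sum]
  refine Finset.sum_congr rfl fun i _ => ?_
  rw [Pi.smul_apply, smul_eq_mul]
  push_cast
  ring

/-- twice the dual lattice is in the lattice -/
lemma two_dual (h : ∀ μ, (¬ ∃ v : Fin 20 → ℤ, μ = G.mulVec v) → ∃ k : ℤ, bd G μ μ = 2 * k + 1)
    (μ : Fin 20 → ℤ) : ∃ v : Fin 20 → ℤ, (fun i => 2 * μ i) = G.mulVec v := by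
  by_contra hcon
  obtain ⟨k, hk⟩ := h _ hcon
  have h1 : ¬ ∃ v : Fin 20 → ℤ, μ = G.mulVec v := by
    rintro ⟨v, hv⟩
    refine hcon ⟨fun i => 2 * v i, ?_⟩
    have h2 : (fun i => 2 * v i) = (2 : ℤ) • v := by
      funext i
      rw [Pi.smul_apply, smul_eq_mul]
    rw [h2, Matrix.mulVec_smul, ← hv]
    funext i
    rw [Pi.smul_apply, smul_eq_mul]
  obtain ⟨k', hk'⟩ := h _ h1
  rw [bd_two, hk'] at hk
  have h3 : (4 * (2 * k' + 1) : ℤ) = 2 * k + 1 := by exact_mod_cast hk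
  omega

lemma det_dvd (h : ∀ μ, (¬ ∃ v : Fin 20 → ℤ, μ = G.mulVec v) → ∃ k : ℤ, bd G μ μ = 2 * k + 1) :
    G.det ∣ 2 ^ 20 := by
  choose v hv using two_dual h
  set H : Matrix (Fin 20) (Fin 20) ℤ := Matrix.of fun i j => v (Pi.single j 1) i with hH
  have h1 : G * H = (2:ℤ) • (1 : Matrix (Fin 20) (Fin 20) ℤ) := by
    ext i j
    have h2 := congrFun (hv (Pi.single j 1)) i
    rw [Matrix.smul_apply, smul_eq_mul, Matrix.mul_apply]
    have h3 : ∑ k, G i k * H k j = G.mulVec (v (Pi.single j 1)) i := rfl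
    rw [h3, ← h2, Matrix.one_apply, Pi.single_apply]
  have h4 : G.det * H.det = 2 ^ 20 := by
    rw [← Matrix.det_mul, h1, Matrix.det_smul, Matrix.det_one, Fintype.card_fin, mul_one]
  exact ⟨_, h4.symm⟩

lemma G_H2 (hP : PosSymm G)
    (h : ∀ μ, (¬ ∃ v : Fin 20 → ℤ, μ = G.mulVec v) → ∃ k : ℤ, bd G μ μ = 2 * k + 1) : H2 G := by
  intro x hx hodd
  choose μ hμ using hx
  have h1 : ¬ ∃ v : Fin 20 → ℤ, μ = G.mulVec v := by
    rintro ⟨v, hv⟩
    have h2 : G.mulVec x = G.mulVec ((2:ℤ) • v) := by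
      rw [Matrix.mulVec_smul, ← hv]
      funext i
      rw [Pi.smul_apply, smul_eq_mul]
      exact hμ i
    have h3 : x = (2:ℤ) • v := by
      have h4 : G.mulVec (x - (2:ℤ) • v) = 0 := by rw [Matrix.mulVec_sub, h2, sub_self]
      have h5 := Matrix.eq_zero_of_mulVec_eq_zero (det_pos hP).ne' h4
      exact sub_eq_zero.1 h5
    obtain ⟨i, hi⟩ := hodd
    exact hi ⟨v i, by rw [h3, Pi.smul_apply, smul_eq_mul]⟩
  obtain ⟨k, hk⟩ := h μ h1
  have h6 := bd_of hP x μ (funext hμ)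
  rw [hk] at h6
  refine ⟨k, ?_⟩
  exact_mod_cast h6.symm

lemma G_det (hP : PosSymm G) (he : ∀ i, Even (G i i))
    (h : ∀ μ, (¬ ∃ v : Fin 20 → ℤ, μ = G.mulVec v) → ∃ k : ℤ, bd G μ μ = 2 * k + 1)
    (h1 : G.det ≠ 1) : G.det = 4 := by
  have hpos := det_pos hP
  obtain ⟨D, hD⟩ := Int.eq_ofNat_of_zero_le hpos.le
  have h2 : D ∣ 2 ^ 20 := by
    have := det_dvd h
    rw [hD] at this
    exact_mod_cast this
  obtain ⟨k, -, hk⟩ := (Nat.dvd_prime_pow Nat.prime_two).1 h2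
  have hk0 : k ≠ 0 := by
    rintro rfl
    apply h1
    rw [hD, hk]
    simp
  obtain ⟨m, rfl⟩ : ∃ m, k = m + 1 := ⟨k - 1, by omega⟩
  have hdet : ((G.det : ℤ) : ℤ_[2]) = 2 ^ (m + 1) := by
    rw [hD, hk]
    push_cast
    rfl
  have hgood := good_of_int hP.symm he (G_H2 hP h)
  obtain ⟨u, hu, hu2⟩ := det_four 8 (Fin 20 → ℤ_[2]) (bz ℤ_[2] G) hgood
    (by rw [finrank_fun_card, Fintype.card_fin]) _ (bz_det G) (by
      rw [hdet, pow_succ']
      exact ⟨_, rfl⟩)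
  rw [hdet] at hu2
  have h3 : (2 : ℤ_[2]) ^ m = 2 * u := by
    have h4 : (2 : ℤ_[2]) * 2 ^ m = 2 * (2 * u) := by
      rw [← pow_succ', hu2]; ring
    exact mul_left_cancel₀ two_ne h4
  rcases m with _ | m
  · exact absurd ⟨u, by rw [← h3, pow_zero]⟩ not_two_dvd_one
  rcases m with _ | m
  · rw [hD, hk]
    norm_num
  · exfalso
    have h5 : u = 2 * 2 ^ m := by
      have h6 : (2 : ℤ_[2]) * u = 2 * (2 * 2 ^ m) := by
        rw [← h3]; ring
      exact mul_left_cancel₀ two_ne h6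
    exact (od_of_isUnit hu).not_dvd ⟨_, h5⟩

end G

/-- **JobGenus** -/
theorem jobGenus : JobGenus := by
  intro G hP he h h1
  have hdet := G_det hP he h h1
  refine ⟨?_, ?_⟩
  · obtain ⟨e, he'⟩ := real_part hP
    refine ⟨e, fun x y => ?_⟩
    rw [← bz_apply, ← bz_apply, he']
  · intro p hp
    have hiso : Iso (bz ℤ_[p] G) (bz ℤ_[p] gramEED) := by
      by_cases hp2 : p = 2
      · subst hp2
        refine good_iso 8 _ _ _ _ (good_of_int hP.symm he (G_H2 hP h))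
          (good_of_int gram_symm gram_even gram_H2) (by rw [finrank_fun_card, Fintype.card_fin])
          (by rw [finrank_fun_card, card_idx]) ⟨1, isUnit_one, ?_⟩ ⟨1, isUnit_one, ?_⟩
        · have := bz_det (R := ℤ_[2]) G
          rw [hdet] at this
          have e : ((-1 : ℤ_[2]) ^ 8 * 4 * 1 ^ 2) = ((4 : ℤ) : ℤ_[2]) := by push_cast; norm_num
          rw [e]
          exact this
        · have := bz_det (R := ℤ_[2]) gramEED
          rw [gram_det] at this
          have e : ((-1 : ℤ_[2]) ^ 8 * 4 * 1 ^ 2) = ((4 : ℤ) : ℤ_[2]) := by push_cast; norm_num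
          rw [e]
          exact this
      · refine odd_iso hp2 20 _ _ _ _ (bz_symm hP.symm) (bz_symm gram_symm)
          (by rw [finrank_fun_card, Fintype.card_fin]) (by rw [finrank_fun_card, card_idx])
          _ _ (bz_det G) (bz_det gramEED) ?_ ?_
        · rw [hdet]
          have h4 : ((4 : ℤ) : ℤ_[p]) = 2 * 2 := by norm_num
          rw [h4]
          exact (two_isUnit hp2).mul (two_isUnit hp2)
        · rw [hdet, gram_det]
          exact ⟨1, isUnit_one, by ring⟩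
    obtain ⟨e, he'⟩ := hiso
    refine ⟨e, fun x y => ?_⟩
    rw [← bz_apply, ← bz_apply, he']

end

end Pool.Agent.Y359.RL
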