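import Pool.Agent.Y359.RL.Two

set_option autoImplicit false
set_option linter.unusedSectionVars false

/-!
# Unimodular forms over `ℤ_p`, `p` odd, and positive definite forms over `ℝ`
-/

namespace Pool.Agent.Y359.RL

open LinearMap (BilinForm)
open Module

noncomputable section

section gen
variable {R : Type} [CommRing R] [IsDomain R] [IsPrincipalIdealRing R]
variable {M : Type} [AddCommGroup M] [Module R M] [Module.Free R M] [Module.Finite R M]

/-- splitting off a vector -/
lemma split_one {b : BilinForm R M} (hb : ∀ x y, b x y = b y x) (x : M) (hx : IsUnit (b x x)) :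
    ∃ S : Submodule R M, finrank R S + 1 = finrank R M ∧
      Iso (os (mf (!![b x x] : Matrix (Fin 1) (Fin 1) R)) (rs b S)) b := by
  have hi := split b hb ![x] !![b x x] (by rw [Matrix.det_fin_one]; exact hx) (by
    intro i j
    fin_cases i; fin_cases j
    rfl)
  refine ⟨orth b ![x], ?_, hi⟩
  obtain ⟨e, -⟩ := hi
  rw [← e.finrank_eq, finrank_prod, finrank_fin_fun, add_comm]

/-- equal up to the square of a unit -/
def Sq (d d' : R) : Prop := ∃ u, IsUnit u ∧ d' = d * u ^ 2

lemma Sq.symm {d d' : R} (h : Sq d d') : Sq d' d := by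
  obtain ⟨u, hu, he⟩ := h
  obtain ⟨w, hw⟩ := hu.exists_right_inv
  refine ⟨w, IsUnit.of_mul_eq_one _ (by rw [mul_comm]; exact hw), ?_⟩
  rw [he]
  linear_combination (-d * (u * w + 1)) * hw

lemma Sq.trans {d d' d'' : R} (h : Sq d d') (h' : Sq d' d'') : Sq d d'' := by
  obtain ⟨u, hu, he⟩ := h
  obtain ⟨w, hw, he'⟩ := h'
  exact ⟨u * w, hu.mul hw, by rw [he', he]; ring⟩

lemma Sq.cancel {g e e' : R} (hg : IsUnit g) (h : Sq (g * e) (g * e')) : Sq e e' := by
  obtain ⟨u, hu, he⟩ := h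
  refine ⟨u, hu, ?_⟩
  have : g * e' = g * (e * u ^ 2) := by rw [he]; ring
  exact hg.mul_left_cancel this

lemma Sq.isUnit {d d' : R} (h : Sq d d') (hd : IsUnit d) : IsUnit d' := by
  obtain ⟨u, hu, he⟩ := h
  rw [he]
  exact hd.mul (hu.pow 2)

lemma exists_hasDet (b : BilinForm R M) : ∃ d, HasDet b d :=
  ⟨_, Fin (finrank R M), inferInstance, inferInstance, Module.finBasis R M, rfl⟩

end gen

section odd
variable {p : ℕ} [Fact p.Prime]

lemma two_isUnit (hp : p ≠ 2) : IsUnit (2 : ℤ_[p]) := by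
  rw [isUnit_iff_not_dvd, ← PadicInt.norm_lt_one_iff_dvd]
  have h := PadicInt.norm_int_lt_one_iff_dvd (p := p) 2
  have h1 : ((2 : ℤ) : ℤ_[p]) = 2 := by norm_num
  rw [h1] at h
  rw [h]
  intro h2
  have h3 : p ∣ 2 := by exact_mod_cast h2
  exact hp ((Nat.prime_dvd_prime_iff_eq (Fact.out) Nat.prime_two).1 h3)

/-- units congruent to one are squares -/
lemma sq_of_one (hp : p ≠ 2) (w : ℤ_[p]) (hw : (p : ℤ_[p]) ∣ w - 1) :
    ∃ s, IsUnit s ∧ s ^ 2 = w := by
  obtain ⟨t, ⟨t', ht'⟩, ht⟩ := hensel_quad (p := p) 1 2 (1 - w) (two_isUnit hp) (by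
    rw [← neg_sub]; exact (dvd_neg).2 hw)
  refine ⟨1 + t, ?_, by linear_combination ht⟩
  rw [isUnit_iff_not_dvd]
  rintro ⟨r, hr⟩
  have h1 : (p : ℤ_[p]) ∣ 1 := ⟨r - t', by linear_combination hr - ht'⟩
  exact ((isUnit_iff_not_dvd (p := p) (1 : ℤ_[p])).1 isUnit_one) h1

variable {M : Type} [AddCommGroup M] [Module ℤ_[p] M] [Module.Free ℤ_[p] M]
  [Module.Finite ℤ_[p] M]

/-- a unimodular form represents a unit -/
lemma exists_unit_diag (hp : p ≠ 2) {b : BilinForm ℤ_[p] M} (hb : ∀ x y, b x y = b y x)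
    {d : ℤ_[p]} (hd : HasDet b d) (hu : IsUnit d) (h1 : 1 ≤ finrank ℤ_[p] M) :
    ∃ x, IsUnit (b x x) := by
  by_contra hcon
  push Not at hcon
  have hdiv : ∀ x, (p : ℤ_[p]) ∣ b x x := by
    intro x
    by_contra h
    exact hcon x ((isUnit_iff_not_dvd _).2 h)
  have hall : ∀ x y, (p : ℤ_[p]) ∣ b x y := by
    intro x y
    have h2 := hdiv (x + y)
    simp only [map_add, LinearMap.add_apply] at h2
    rw [hb y x] at h2
    obtain ⟨r, hr⟩ := h2
    obtain ⟨s, hs⟩ := hdiv x
    obtain ⟨t, ht⟩ := hdiv y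
    have h3 : (p : ℤ_[p]) ∣ 2 * b x y := ⟨r - s - t, by linear_combination hr - hs - ht⟩
    rcases PadicInt.prime_p.dvd_or_dvd h3 with h4 | h4
    · exact absurd h4 ((isUnit_iff_not_dvd _).1 (two_isUnit hp))
    · exact h4
  obtain ⟨ι, _, _, v, hv⟩ := hd
  have hne : Nonempty ι := by
    by_contra hne
    rw [not_nonempty_iff] at hne
    rw [finrank_eq_card_basis v, Fintype.card_eq_zero] at h1
    omega
  obtain ⟨i⟩ := hne
  set A : Matrix ι ι ℤ_[p] := Matrix.of fun i j => b (v i) (v j) with hA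
  have hAu : IsUnit A.det := by rw [hv]; exact hu
  have h5 : (A * A⁻¹) i i = 1 := by rw [Matrix.mul_nonsing_inv _ hAu, Matrix.one_apply_eq]
  have h6 : (p : ℤ_[p]) ∣ 1 := by
    rw [← h5, Matrix.mul_apply]
    exact Finset.dvd_sum fun j _ => Dvd.dvd.mul_right (hall _ _) _
  exact ((isUnit_iff_not_dvd (p := p) (1 : ℤ_[p])).1 isUnit_one) h6

/-- binary forms represent one modulo `p` -/
lemma binary_one (hp : p ≠ 2) (u v : ℤ_[p]) (hu : IsUnit u) (hv : IsUnit v) :
    ∃ a c : ℤ_[p], (p : ℤ_[p]) ∣ u * a ^ 2 + v * c ^ 2 - 1 := by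
  have hu0 : PadicInt.toZMod u ≠ 0 := (hu.map (PadicInt.toZMod (p := p))).ne_zero
  have hv0 : PadicInt.toZMod v ≠ 0 := (hv.map (PadicInt.toZMod (p := p))).ne_zero
  obtain ⟨a, c, h⟩ := FiniteField.exists_root_sum_quadratic (R := ZMod p)
    (f := Polynomial.C (PadicInt.toZMod u) * Polynomial.X ^ 2)
    (g := Polynomial.C (PadicInt.toZMod v) * Polynomial.X ^ 2 + Polynomial.C 0 * Polynomial.X +
      Polynomial.C (-1)) (Polynomial.degree_C_mul_X_pow 2 hu0)
    (Polynomial.degree_quadratic hv0) (by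
      rw [ZMod.card]
      exact (Nat.Prime.eq_two_or_odd Fact.out).resolve_left hp)
  obtain ⟨a', rfl⟩ := ZMod.ringHom_surjective (PadicInt.toZMod (p := p)) a
  obtain ⟨c', rfl⟩ := ZMod.ringHom_surjective (PadicInt.toZMod (p := p)) c
  refine ⟨a', c', ?_⟩
  have h1 : PadicInt.toZMod (u * a' ^ 2 + v * c' ^ 2 - 1) = 0 := by
    simp only [map_sub, map_add, map_mul, map_pow, map_one]
    simp only [Polynomial.eval_add, Polynomial.eval_mul, Polynomial.eval_C, Polynomial.eval_pow,
      Polynomial.eval_X] at h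
    linear_combination h
  have h2 : (u * a' ^ 2 + v * c' ^ 2 - 1) ∈ RingHom.ker (PadicInt.toZMod (p := p)) := h1
  rw [PadicInt.ker_toZMod, PadicInt.maximalIdeal_eq_span_p, Ideal.mem_span_singleton] at h2
  exact h2

/-- a unimodular form of rank at least two represents one -/
lemma exists_norm_one (hp : p ≠ 2) {b : BilinForm ℤ_[p] M} (hb : ∀ x y, b x y = b y x)
    {d : ℤ_[p]} (hd : HasDet b d) (hu : IsUnit d) (h2 : 2 ≤ finrank ℤ_[p] M) :
    ∃ x, b x x = 1 := by
  obtain ⟨x, hx⟩ := exists_unit_diag hp hb hd hu (by omega)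
  obtain ⟨S, hr, hi⟩ := split_one hb x hx
  obtain ⟨e, he⟩ := exists_hasDet (rs b S)
  have h3 := ((hasDet_mf _).os he).iso hi
  obtain ⟨w, hw, hw2⟩ := hd.unique h3
  rw [Matrix.det_fin_one] at hw2
  have h4 : IsUnit e := by
    have h5 : IsUnit (b x x * e) := by
      have h6 : (!![b x x] : Matrix (Fin 1) (Fin 1) ℤ_[p]) 0 0 * e = b x x * e := rfl
      rw [← h6, hw2]
      exact hu.mul (hw.pow 2)
    exact isUnit_of_mul_isUnit_right h5
  obtain ⟨y, hy⟩ := exists_unit_diag hp (b := rs b S) (fun s t => hb s t) he h4 (by omega)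
  -- the vector `y` is orthogonal to `x` after transport
  obtain ⟨f, hf⟩ := hi
  obtain ⟨a, c, hac⟩ := binary_one hp (b x x) (rs b S y y) hx hy
  obtain ⟨s, hs, hs2⟩ := sq_of_one hp _ hac
  obtain ⟨w', hw'⟩ := hs.exists_right_inv
  refine ⟨w' • f (![a], c • y), ?_⟩
  have h8 : b (w' • f (![a], c • y)) (w' • f (![a], c • y)) =
      w' * w' * b (f (![a], c • y)) (f (![a], c • y)) := by
    simp only [map_smul, LinearMap.smul_apply, smul_eq_mul]; ring
  rw [h8, hf, os_apply, mf_apply]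
  simp only [Finset.univ_unique, Fin.default_eq_zero, Finset.sum_singleton, map_smul,
    LinearMap.smul_apply, smul_eq_mul, Matrix.cons_val_fin_one, Matrix.of_apply]
  have h7 : a * b x x * a + c * (c * rs b S y y) = s ^ 2 := by rw [hs2]; ring
  rw [h7]
  linear_combination (s * w' + 1) * hw'

/-- **classification of unimodular forms**, `p` odd -/
theorem odd_iso (hp : p ≠ 2) : ∀ (n : ℕ) (M N : Type) [AddCommGroup M] [Module ℤ_[p] M]
    [Module.Free ℤ_[p] M] [Module.Finite ℤ_[p] M] [AddCommGroup N] [Module ℤ_[p] N]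
    [Module.Free ℤ_[p] N] [Module.Finite ℤ_[p] N] (b : BilinForm ℤ_[p] M)
    (c : BilinForm ℤ_[p] N), (∀ x y, b x y = b y x) → (∀ x y, c x y = c y x) →
    finrank ℤ_[p] M = n → finrank ℤ_[p] N = n → ∀ d d', HasDet b d → HasDet c d' →
    IsUnit d → Sq d d' → Iso b c := by
  intro n
  induction n with
  | zero =>
    intro M N _ _ _ _ _ _ _ _ b c _ _ h0 h0' _ _ _ _ _ _
    have : Subsingleton M := Module.finrank_zero_iff.1 h0
    have : Subsingleton N := Module.finrank_zero_iff.1 h0'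
    exact iso_of_subsingleton b c
  | succ n ih =>
    intro M N _ _ _ _ _ _ _ _ b c hb hc h1 h1' d d' hd hd' hu hsq
    have key : ∃ x y, IsUnit (b x x) ∧ c y y = b x x := by
      rcases Nat.eq_zero_or_pos n with rfl | hn
      · set v := Module.finBasisOfFinrankEq ℤ_[p] M h1
        set v' := Module.finBasisOfFinrankEq ℤ_[p] N h1'
        have e1 : HasDet b (b (v 0) (v 0)) :=
          ⟨Fin 1, inferInstance, inferInstance, v, by rw [Matrix.det_fin_one]; rfl⟩
        have e2 : HasDet c (c (v' 0) (v' 0)) :=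
          ⟨Fin 1, inferInstance, inferInstance, v', by rw [Matrix.det_fin_one]; rfl⟩
        have s1 : Sq (b (v 0) (v 0)) d := e1.unique hd
        have s2 : Sq d' (c (v' 0) (v' 0)) := hd'.unique e2
        obtain ⟨u, hu', he⟩ := ((s1.trans hsq).trans s2).symm
        refine ⟨v 0, u • v' 0, s1.symm.isUnit hu, ?_⟩
        simp only [map_smul, LinearMap.smul_apply, smul_eq_mul]
        rw [he]
        ring
      · obtain ⟨x, hx⟩ := exists_norm_one hp hb hd hu (by omega)
        obtain ⟨y, hy⟩ := exists_norm_one hp hc hd' (hsq.isUnit hu) (by omega)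
        exact ⟨x, y, by rw [hx]; exact isUnit_one, by rw [hx, hy]⟩
    obtain ⟨x, y, hx, hy⟩ := key
    obtain ⟨S, hr, hi⟩ := split_one hb x hx
    obtain ⟨S', hr', hi'⟩ := split_one hc y (by rw [hy]; exact hx)
    rw [hy] at hi'
    obtain ⟨e, he⟩ := exists_hasDet (rs b S)
    obtain ⟨e', he'⟩ := exists_hasDet (rs c S')
    have t1 := hd.unique (((hasDet_mf _).os he).iso hi)
    have t2 := hd'.unique (((hasDet_mf _).os he').iso hi')
    rw [Matrix.det_fin_one] at t1 t2
    have t1' : Sq d (b x x * e) := t1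
    have t2' : Sq d' (b x x * e') := t2
    have hsq' : Sq e e' := Sq.cancel hx ((t1'.symm.trans hsq).trans t2')
    have heu : IsUnit e := isUnit_of_mul_isUnit_right (t1'.isUnit hu)
    have := ih S S' (rs b S) (rs c S') (fun s t => hb s t) (fun s t => hc s t) (by omega)
      (by omega) e e' he he' heu hsq'
    exact hi.symm.trans (((Iso.refl _).os this).trans hi')

end odd

section real

/-- **positive definite forms over the reals** -/
theorem real_iso : ∀ (n : ℕ) (M N : Type) [AddCommGroup M] [Module ℝ M]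
    [Module.Finite ℝ M] [AddCommGroup N] [Module ℝ N] [Module.Finite ℝ N] (b : BilinForm ℝ M)
    (c : BilinForm ℝ N), (∀ x y, b x y = b y x) → (∀ x y, c x y = c y x) →
    (∀ x, x ≠ 0 → 0 < b x x) → (∀ x, x ≠ 0 → 0 < c x x) →
    finrank ℝ M = n → finrank ℝ N = n → Iso b c := by
  intro n
  induction n with
  | zero =>
    intro M N _ _ _ _ _ _ b c _ _ _ _ h0 h0'
    have : Subsingleton M := Module.finrank_zero_iff.1 h0
    have : Subsingleton N := Module.finrank_zero_iff.1 h0'
    exact iso_of_subsingleton b c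
  | succ n ih =>
    intro M N _ _ _ _ _ _ b c hb hc hpb hpc h1 h1'
    have key : ∀ (L : Type) [AddCommGroup L] [Module ℝ L] [Module.Finite ℝ L]
        (b : BilinForm ℝ L), (∀ x, x ≠ 0 → 0 < b x x) → finrank ℝ L = n + 1 →
        ∃ x, b x x = 1 := by
      intro L _ _ _ b hpb h1
      have : Nontrivial L := Module.nontrivial_of_finrank_pos (R := ℝ) (by omega)
      obtain ⟨x, hx⟩ := exists_ne (0 : L)
      have hp := hpb x hx
      refine ⟨(Real.sqrt (b x x))⁻¹ • x, ?_⟩
      simp only [map_smul, LinearMap.smul_apply, smul_eq_mul]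
      have h2 := Real.mul_self_sqrt hp.le
      have h3 : Real.sqrt (b x x) ≠ 0 := (Real.sqrt_pos.2 hp).ne'
      field_simp
      rw [Real.sq_sqrt hp.le]
    obtain ⟨x, hx⟩ := key M b hpb h1
    obtain ⟨y, hy⟩ := key N c hpc h1'
    obtain ⟨S, hr, hi⟩ := split_one hb x (by rw [hx]; exact isUnit_one)
    obtain ⟨S', hr', hi'⟩ := split_one hc y (by rw [hy]; exact isUnit_one)
    rw [hx] at hi
    rw [hy] at hi'
    have := ih S S' (rs b S) (rs c S') (fun s t => hb s t) (fun s t => hc s t)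
      (fun s hs => hpb s (by simpa using hs)) (fun s hs => hpc s (by simpa using hs)) (by omega)
      (by omega)
    exact hi.symm.trans (((Iso.refl _).os this).trans hi')

end real

end

end Pool.Agent.Y359.RL
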