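import Pool.Agent.Y359.RL.Forms

set_option autoImplicit false
set_option linter.unusedSectionVars false

/-!
# The two-adic forms: even, with the discriminant form of `D_4`
-/

namespace Pool.Agent.Y359.RL

open LinearMap (BilinForm)
open Module

noncomputable section

section hensel
variable {p : ℕ} [Fact p.Prime]

lemma isUnit_iff_not_dvd (x : ℤ_[p]) : IsUnit x ↔ ¬ (p : ℤ_[p]) ∣ x := by
  rw [← PadicInt.norm_lt_one_iff_dvd, PadicInt.isUnit_iff, not_lt]
  exact ⟨fun h => h.ge, fun h => le_antisymm (PadicInt.norm_le_one x) h⟩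

/-- quadratic Hensel lemma -/
lemma hensel_quad (a β c : ℤ_[p]) (hβ : IsUnit β) (hc : (p : ℤ_[p]) ∣ c) :
    ∃ s : ℤ_[p], (p : ℤ_[p]) ∣ s ∧ a * s ^ 2 + β * s + c = 0 := by
  set F : Polynomial ℤ_[p] := Polynomial.C a * Polynomial.X ^ 2 + Polynomial.C β * Polynomial.X +
    Polynomial.C c with hF
  have h1 : F.aeval (0 : ℤ_[p]) = c := by
    rw [hF]; simp
  have h2 : F.derivative.aeval (0 : ℤ_[p]) = β := by
    rw [hF]
    simp
  have h3 : ‖c‖ < 1 := (PadicInt.norm_lt_one_iff_dvd c).2 hc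
  have h4 : ‖β‖ = 1 := PadicInt.isUnit_iff.1 hβ
  obtain ⟨z, hz, hz1, -, -⟩ := hensels_lemma (F := F) (a := 0) (by rw [h1, h2, h4, one_pow]; exact h3)
  refine ⟨z, ?_, ?_⟩
  · rw [← PadicInt.norm_lt_one_iff_dvd]
    rwa [h2, h4, sub_zero] at hz1
  · rw [hF] at hz
    simpa using hz

end hensel

section two

/-- odd elements -/
def Od (x : ℤ_[2]) : Prop := ∃ t, x = 1 + 2 * t

lemma Od_or (x : ℤ_[2]) : Od x ∨ (2 : ℤ_[2]) ∣ x := by
  obtain ⟨n, hn, hx⟩ := PadicInt.exists_mem_range x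
  rw [PadicInt.maximalIdeal_eq_span_p, Ideal.mem_span_singleton] at hx
  obtain ⟨t, ht⟩ := hx
  push_cast at ht
  interval_cases n
  · right
    exact ⟨t, by rw [← ht]; simp⟩
  · left
    exact ⟨t, by rw [← ht]; push_cast; ring⟩

lemma not_two_dvd_one : ¬ (2 : ℤ_[2]) ∣ 1 := by
  intro h
  have h1 := (isUnit_iff_not_dvd (p := 2) (1 : ℤ_[2])).1 isUnit_one
  exact h1 (by exact_mod_cast h)

lemma Od.not_dvd {x : ℤ_[2]} (h : Od x) : ¬ (2 : ℤ_[2]) ∣ x := by
  obtain ⟨t, rfl⟩ := h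
  rintro ⟨s, hs⟩
  exact not_two_dvd_one ⟨s - t, by linear_combination hs⟩

lemma Od.isUnit {x : ℤ_[2]} (h : Od x) : IsUnit x := by
  rw [isUnit_iff_not_dvd]
  exact_mod_cast h.not_dvd

lemma od_iff {x : ℤ_[2]} : Od x ↔ ¬ (2 : ℤ_[2]) ∣ x :=
  ⟨fun h => h.not_dvd, fun h => (Od_or x).resolve_right h⟩

lemma od_of_isUnit {x : ℤ_[2]} (h : IsUnit x) : Od x := by
  rw [od_iff]
  have := (isUnit_iff_not_dvd x).1 h
  exact_mod_cast this

lemma Od.mul {x y : ℤ_[2]} (hx : Od x) (hy : Od y) : Od (x * y) :=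
  od_of_isUnit (hx.isUnit.mul hy.isUnit)

lemma Od.add {x y : ℤ_[2]} (hx : Od x) (hy : Od y) : (2 : ℤ_[2]) ∣ x + y := by
  obtain ⟨s, rfl⟩ := hx
  obtain ⟨t, rfl⟩ := hy
  exact ⟨1 + s + t, by ring⟩

lemma Od.add_even {x y : ℤ_[2]} (hx : Od x) (hy : (2 : ℤ_[2]) ∣ y) : Od (x + y) := by
  obtain ⟨s, rfl⟩ := hx
  obtain ⟨t, rfl⟩ := hy
  exact ⟨s + t, by ring⟩

lemma hensel2 (a β c : ℤ_[2]) (hβ : Od β) (hc : (2 : ℤ_[2]) ∣ c) :
    ∃ s : ℤ_[2], (2 : ℤ_[2]) ∣ s ∧ a * s ^ 2 + β * s + c = 0 := by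
  have := hensel_quad (p := 2) a β c hβ.isUnit (by exact_mod_cast hc)
  exact_mod_cast this

lemma two_ne : (2 : ℤ_[2]) ≠ 0 := two_ne_zero

/-- even forms such that the dual vectors outside the lattice have odd norm -/
structure Good {M : Type} [AddCommGroup M] [Module ℤ_[2] M] (b : BilinForm ℤ_[2] M) : Prop where
  symm : ∀ x y, b x y = b y x
  even : ∀ x, ∃ t, b x x = 2 * t
  h2 : ∀ x, (∀ y, (2:ℤ_[2]) ∣ b x y) → (¬ ∃ z, x = (2:ℤ_[2]) • z) → ∃ t, b x x = 4 * (1 + 2 * t)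

variable {M N : Type} [AddCommGroup M] [Module ℤ_[2] M] [AddCommGroup N] [Module ℤ_[2] N]

lemma Good.iso {b : BilinForm ℤ_[2] M} {c : BilinForm ℤ_[2] N} (h : Good b) (hi : Iso b c) :
    Good c := by
  obtain ⟨e, he⟩ := hi
  have he' : ∀ x y, c x y = b (e.symm x) (e.symm y) := by
    intro x y
    rw [← he, LinearEquiv.apply_symm_apply, LinearEquiv.apply_symm_apply]
  refine ⟨fun x y => ?_, fun x => ?_, fun x hx hz => ?_⟩
  · rw [he', he', h.symm]
  · rw [he']; exact h.even _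
  · rw [he']
    refine h.h2 _ (fun y => ?_) ?_
    · have := hx (e y)
      rwa [he', LinearEquiv.symm_apply_apply] at this
    · rintro ⟨z, hz'⟩
      refine hz ⟨e z, ?_⟩
      rw [← map_smul, ← hz', LinearEquiv.apply_symm_apply]

lemma Good.snd {b : BilinForm ℤ_[2] M} {c : BilinForm ℤ_[2] N} (h : Good (os b c)) : Good c := by
  refine ⟨fun x y => ?_, fun x => ?_, fun x hx hz => ?_⟩
  · have := h.symm (0, x) (0, y)
    simpa [os_apply] using this
  · have := h.even (0, x)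
    simpa [os_apply] using this
  · have := h.h2 (0, x) (fun y => ?_) ?_
    · simpa [os_apply] using this
    · have h3 : os b c (0, x) y = c x y.2 := by simp [os_apply]
      rw [h3]
      exact hx y.2
    · rintro ⟨z, hz'⟩
      exact hz ⟨z.2, congrArg Prod.snd hz'⟩

/-- a form of rank at least three is not divisible by two -/
lemma Good.exists_unit [Module.Free ℤ_[2] M] [Module.Finite ℤ_[2] M] {b : BilinForm ℤ_[2] M}
    (h : Good b) (h3 : 3 ≤ finrank ℤ_[2] M) : ∃ x y, Od (b x y) := by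
  by_contra hcon
  push Not at hcon
  have hall : ∀ x y, (2:ℤ_[2]) ∣ b x y := fun x y => (Od_or _).resolve_left (hcon x y)
  set v := Module.finBasis ℤ_[2] M with hv
  set i0 : Fin (finrank ℤ_[2] M) := ⟨0, by omega⟩ with hi0
  set i1 : Fin (finrank ℤ_[2] M) := ⟨1, by omega⟩ with hi1
  set i2 : Fin (finrank ℤ_[2] M) := ⟨2, by omega⟩ with hi2
  have n01 : i0 ≠ i1 := by rw [hi0, hi1]; simp
  have n02 : i0 ≠ i2 := by rw [hi0, hi2]; simp
  have n12 : i1 ≠ i2 := by rw [hi1, hi2]; simp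
  have key : ∀ x : M, (∃ i, Od (v.repr x i)) → ∃ t, b x x = 4 * (1 + 2 * t) := by
    rintro x ⟨i, hi⟩
    refine h.h2 x (hall x) ?_
    rintro ⟨z, hz⟩
    refine hi.not_dvd ⟨v.repr z i, ?_⟩
    rw [hz, map_smul, Finsupp.smul_apply, smul_eq_mul]
  have o1 : Od (1 : ℤ_[2]) := ⟨0, by ring⟩
  have r : ∀ i j, v.repr (v i) j = if i = j then 1 else 0 := fun i j => by
    rw [Basis.repr_self, Finsupp.single_apply]
  obtain ⟨a, ha⟩ := key (v i0) ⟨i0, by rw [r, if_pos rfl]; exact o1⟩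
  obtain ⟨c, hc⟩ := key (v i1) ⟨i1, by rw [r, if_pos rfl]; exact o1⟩
  obtain ⟨d, hd⟩ := key (v i2) ⟨i2, by rw [r, if_pos rfl]; exact o1⟩
  obtain ⟨e, he⟩ := key (v i0 + v i1) ⟨i0, by
    rw [map_add, Finsupp.add_apply, r, r, if_pos rfl, if_neg n01.symm, add_zero]; exact o1⟩
  obtain ⟨f, hf⟩ := key (v i0 + v i2) ⟨i0, by
    rw [map_add, Finsupp.add_apply, r, r, if_pos rfl, if_neg n02.symm, add_zero]; exact o1⟩
  obtain ⟨g, hg⟩ := key (v i1 + v i2) ⟨i1, by
    rw [map_add, Finsupp.add_apply, r, r, if_pos rfl, if_neg n12.symm, add_zero]; exact o1⟩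
  obtain ⟨k, hk⟩ := key (v i0 + v i1 + v i2) ⟨i0, by
    rw [map_add, map_add, Finsupp.add_apply, Finsupp.add_apply, r, r, r, if_pos rfl,
      if_neg n01.symm, if_neg n02.symm, add_zero, add_zero]; exact o1⟩
  simp only [map_add, LinearMap.add_apply] at he hf hg hk
  rw [h.symm (v i1) (v i0)] at he hk
  rw [h.symm (v i2) (v i0)] at hf hk
  rw [h.symm (v i2) (v i1)] at hg hk
  refine not_two_dvd_one ⟨k + a + c + d - e - f - g + 1, ?_⟩
  have h8 : (4 : ℤ_[2]) * 1 = 4 * (2 * (k + a + c + d - e - f - g + 1)) := by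
    linear_combination hk + ha + hc + hd - he - hf - hg
  exact mul_left_cancel₀ (by norm_num) h8

/-- the hyperbolic plane -/
def mU : Matrix (Fin 2) (Fin 2) ℤ_[2] := !![0, 1; 1, 0]

/-- the anisotropic plane -/
def mV : Matrix (Fin 2) (Fin 2) ℤ_[2] := !![2, 1; 1, 2]

/-- splitting off a plane -/
lemma split_plane [Module.Free ℤ_[2] M] [Module.Finite ℤ_[2] M] {b : BilinForm ℤ_[2] M}
    (h : Good b) (x y : M) (g : Matrix (Fin 2) (Fin 2) ℤ_[2]) (hg : IsUnit g.det)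
    (h00 : b x x = g 0 0) (h01 : b x y = g 0 1) (h10 : b x y = g 1 0) (h11 : b y y = g 1 1) :
    ∃ S : Submodule ℤ_[2] M, (∀ s ∈ S, b x s = 0 ∧ b y s = 0) ∧ Good (rs b S) ∧
      finrank ℤ_[2] S + 2 = finrank ℤ_[2] M ∧ Iso (os (mf g) (rs b S)) b := by
  have hi := split b h.symm ![x, y] g hg (by
    intro i j
    fin_cases i <;> fin_cases j
    · exact h00
    · exact h01
    · show b y x = _
      rw [h.symm]; exact h10
    · exact h11)
  refine ⟨orth b ![x, y], fun s hs => ⟨hs 0, hs 1⟩, (h.iso hi.symm).snd, ?_, hi⟩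
  obtain ⟨e, -⟩ := hi
  rw [← e.finrank_eq, finrank_prod, finrank_fin_fun, add_comm]

/-- the Gram matrix of a pair with odd product -/
lemma det_pair {b : BilinForm ℤ_[2] M} (h : Good b) (x y : M) (hxy : Od (b x y)) :
    IsUnit (!![b x x, b x y; b x y, b y y] : Matrix (Fin 2) (Fin 2) ℤ_[2]).det := by
  rw [Matrix.det_fin_two_of]
  obtain ⟨s, hs⟩ := h.even x
  obtain ⟨t, ht⟩ := h.even y
  apply Od.isUnit
  rw [hs, ht]
  obtain ⟨u, hu⟩ := hxy
  exact ⟨2 * s * t - 1 - 2 * u - 2 * u ^ 2, by rw [hu]; ring⟩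

/-- splitting off a hyperbolic plane -/
lemma splitU [Module.Free ℤ_[2] M] [Module.Finite ℤ_[2] M] {b : BilinForm ℤ_[2] M}
    (h : Good b) (x y : M) (hx : (4 : ℤ_[2]) ∣ b x x) (hxy : Od (b x y)) :
    ∃ S : Submodule ℤ_[2] M, Good (rs b S) ∧
      finrank ℤ_[2] S + 2 = finrank ℤ_[2] M ∧ Iso (os (mf mU) (rs b S)) b := by
  obtain ⟨q, hq⟩ := hx
  obtain ⟨t, ht⟩ := h.even y
  obtain ⟨s, ⟨s', hs'⟩, hs⟩ := hensel2 t (b x y) (2 * q) hxy ⟨q, rfl⟩
  set x1 := x + s • y with hx1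
  have e1 : b x1 x1 = 0 := by
    rw [hx1]
    simp only [map_add, LinearMap.add_apply, map_smul, LinearMap.smul_apply, smul_eq_mul]
    rw [h.symm y x, hq, ht]
    linear_combination 2 * hs
  have e2 : Od (b x1 y) := by
    have : b x1 y = b x y + 2 * (s' * b y y) := by
      rw [hx1]
      simp only [map_add, LinearMap.add_apply, map_smul, LinearMap.smul_apply, smul_eq_mul]
      rw [hs']; ring
    rw [this]
    exact hxy.add_even ⟨_, rfl⟩
  obtain ⟨w, hw⟩ := e2.isUnit.exists_right_inv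
  set y1 := w • y with hy1
  have e3 : b x1 y1 = 1 := by
    rw [hy1, map_smul, smul_eq_mul, mul_comm, hw]
  obtain ⟨r, hr⟩ := h.even y1
  set y2 := y1 - r • x1 with hy2
  have e4 : b x1 y2 = 1 := by
    rw [hy2, map_sub, e3, map_smul, e1]; simp
  have e5 : b y2 y2 = 0 := by
    rw [hy2]
    simp only [map_sub, LinearMap.sub_apply, map_smul, LinearMap.smul_apply, smul_eq_mul]
    rw [h.symm y1 x1, e1, e3, hr]
    ring
  obtain ⟨S, -, h1, h2, h3⟩ := split_plane h x1 y2 mU (by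
    unfold mU; rw [Matrix.det_fin_two_of]; simp) e1 e4 e4 e5
  exact ⟨S, h1, h2, h3⟩

/-- the anisotropic planes are all isometric -/
lemma plane_mV (a β c : ℤ_[2]) (ha : Od a) (hβ : Od β) (hc : Od c) :
    Iso (mf !![2 * a, β; β, 2 * c]) (mf mV) := by
  set b := mf !![2 * a, β; β, 2 * c] with hb
  have hbf : ∀ x y : Fin 2 → ℤ_[2], b x y =
      2 * a * (x 0 * y 0) + β * (x 0 * y 1 + x 1 * y 0) + 2 * c * (x 1 * y 1) := by
    intro x y
    rw [hb, mf_apply]
    simp [Fin.sum_univ_two]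
    ring
  have hsym : ∀ x y, b x y = b y x := by
    intro x y; rw [hbf, hbf]; ring
  obtain ⟨a', ha'⟩ := ha
  obtain ⟨s, ⟨s', hs'⟩, hs⟩ := hensel2 c β (a - 1) hβ ⟨a', by rw [ha']; ring⟩
  have hβ' : Od (β + 2 * c * s) := hβ.add_even ⟨c * s, by ring⟩
  obtain ⟨w, hw⟩ := hβ'.isUnit.exists_right_inv
  have how : Od w := od_of_isUnit (IsUnit.of_mul_eq_one _ (by rw [mul_comm]; exact hw))
  have hc' : Od (c * w ^ 2) := hc.mul (by rw [pow_two]; exact how.mul how)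
  obtain ⟨c1, hc1⟩ := hc'
  obtain ⟨α, -, hα⟩ := hensel2 (4 * (c * w ^ 2) - 1) (1 - 4 * (c * w ^ 2)) (c * w ^ 2 - 1)
    ⟨-2 * (c * w ^ 2), by ring⟩ ⟨c1, by rw [hc1]; ring⟩
  set x : Fin 2 → ℤ_[2] := ![1, s] with hx
  set y : Fin 2 → ℤ_[2] := ![α, α * s + (1 - 2 * α) * w] with hy
  have h00 : b x x = 2 := by
    rw [hbf, hx]
    simp only [Matrix.cons_val_zero, Matrix.cons_val_one]
    linear_combination 2 * hs
  have h01 : b x y = 1 := by
    rw [hbf, hx, hy]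
    simp only [Matrix.cons_val_zero, Matrix.cons_val_one]
    linear_combination 2 * α * hs + (1 - 2 * α) * hw
  have h11 : b y y = 2 := by
    rw [hbf, hy]
    simp only [Matrix.cons_val_zero, Matrix.cons_val_one]
    linear_combination 2 * α ^ 2 * hs + 2 * α * (1 - 2 * α) * hw + 2 * hα
  have hdet : IsUnit mV.det := by
    unfold mV
    rw [Matrix.det_fin_two_of]
    exact Od.isUnit ⟨1, by ring⟩
  have hi := split b hsym ![x, y] mV hdet (by
    intro i j
    fin_cases i <;> fin_cases j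
    · exact h00
    · exact h01
    · show b y x = _
      rw [hsym]; exact h01
    · exact h11)
  obtain ⟨e, he⟩ := hi
  have hf : finrank ℤ_[2] (orth b ![x, y]) = 0 := by
    have := e.finrank_eq
    rw [finrank_prod, finrank_fin_fun] at this
    omega
  have hsub : Subsingleton (orth b ![x, y]) := Module.finrank_zero_iff.1 hf
  let _ : Unique (orth b ![x, y]) := ⟨⟨0⟩, fun _ => Subsingleton.elim _ _⟩
  refine Iso.symm ⟨(LinearEquiv.prodUnique (R := ℤ_[2]) (M := Fin 2 → ℤ_[2])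
    (M₂ := orth b ![x, y])).symm.trans e, fun z z' => ?_⟩
  rw [LinearEquiv.trans_apply, LinearEquiv.trans_apply, he]
  simp [os_apply, Subsingleton.elim (default : orth b ![x, y]) 0]

/-- a form whose orthogonal summand has rank zero -/
lemma iso_of_zero {k : ℕ} {b : BilinForm ℤ_[2] M} {g : Matrix (Fin k) (Fin k) ℤ_[2]}
    {S : Submodule ℤ_[2] M} [Module.Free ℤ_[2] M] [Module.Finite ℤ_[2] M]
    (hS : finrank ℤ_[2] S = 0) (hi : Iso (os (mf g) (rs b S)) b) : Iso (mf g) b := by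
  obtain ⟨e, he⟩ := hi
  have hsub : Subsingleton S := Module.finrank_zero_iff.1 hS
  let _ : Unique S := ⟨⟨0⟩, fun _ => Subsingleton.elim _ _⟩
  refine ⟨(LinearEquiv.prodUnique (R := ℤ_[2]) (M := Fin k → ℤ_[2])
    (M₂ := S)).symm.trans e, fun z z' => ?_⟩
  rw [LinearEquiv.trans_apply, LinearEquiv.trans_apply, he]
  simp [os_apply, Subsingleton.elim (default : S) 0]

/-- good forms of rank two -/
lemma rank_two [Module.Free ℤ_[2] M] [Module.Finite ℤ_[2] M] {b : BilinForm ℤ_[2] M}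
    (h : Good b) (h2 : finrank ℤ_[2] M = 2) :
    (∃ x y, Od (b x y)) ∨ Iso ((2 : ℤ_[2]) • mf mV) b := by
  by_cases hcon : ∃ x y, Od (b x y)
  · exact Or.inl hcon
  right
  push Not at hcon
  have hall : ∀ x y, (2:ℤ_[2]) ∣ b x y := fun x y => (Od_or _).resolve_left (hcon x y)
  set v : Basis (Fin 2) ℤ_[2] M := Module.finBasisOfFinrankEq ℤ_[2] M h2 with hv
  have key : ∀ x : M, (∃ i, Od (v.repr x i)) → ∃ t, b x x = 4 * (1 + 2 * t) := by
    rintro x ⟨i, hi⟩
    refine h.h2 x (hall x) ?_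
    rintro ⟨z, hz⟩
    refine hi.not_dvd ⟨v.repr z i, ?_⟩
    rw [hz, map_smul, Finsupp.smul_apply, smul_eq_mul]
  have o1 : Od (1 : ℤ_[2]) := ⟨0, by ring⟩
  have r : ∀ i j, v.repr (v i) j = if i = j then 1 else 0 := fun i j => by
    rw [Basis.repr_self, Finsupp.single_apply]
  obtain ⟨a, ha⟩ := key (v 0) ⟨0, by rw [r, if_pos rfl]; exact o1⟩
  obtain ⟨c, hc⟩ := key (v 1) ⟨1, by rw [r, if_pos rfl]; exact o1⟩
  obtain ⟨e, he⟩ := key (v 0 + v 1) ⟨0, by
    rw [map_add, Finsupp.add_apply, r, r, if_pos rfl, if_neg (by decide), add_zero]; exact o1⟩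
  simp only [map_add, LinearMap.add_apply] at he
  rw [h.symm (v 1) (v 0)] at he
  have hβ : b (v 0) (v 1) = 2 * (2 * (e - a - c) - 1) := by
    have h4 : (2 : ℤ_[2]) * b (v 0) (v 1) = 2 * (2 * (2 * (e - a - c) - 1)) := by
      linear_combination he - ha - hc
    exact mul_left_cancel₀ two_ne h4
  have hV := plane_mV (1 + 2 * a) (2 * (e - a - c) - 1) (1 + 2 * c) ⟨a, rfl⟩
    ⟨e - a - c - 1, by ring⟩ ⟨c, rfl⟩
  refine (hV.smul 2).symm.trans ?_
  refine Iso.symm ⟨v.equivFun, fun x y => ?_⟩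
  rw [LinearMap.smul_apply, LinearMap.smul_apply, mf_apply]
  conv_rhs => rw [← v.sum_equivFun x, ← v.sum_equivFun y]
  simp only [Fin.sum_univ_two, map_add, LinearMap.add_apply, map_smul, LinearMap.smul_apply,
    smul_eq_mul]
  rw [h.symm (v 1) (v 0), ha, hc, hβ]
  simp
  ring

/-- in rank at least five there is an isotropic vector in the unimodular part -/
lemma exists_isotropic [Module.Free ℤ_[2] M] [Module.Finite ℤ_[2] M] {b : BilinForm ℤ_[2] M}
    (h : Good b) (x y : M) (hxy : Od (b x y)) (S : Submodule ℤ_[2] M)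
    (hS : ∀ s ∈ S, b x s = 0 ∧ b y s = 0) (z w : M) (hz : z ∈ S) (hw : w ∈ S)
    (hzw : Od (b z w)) : ∃ x₀ y₀ : M, (4 : ℤ_[2]) ∣ b x₀ x₀ ∧ Od (b x₀ y₀) := by
  obtain ⟨s, hs⟩ := h.even x
  obtain ⟨t, ht⟩ := h.even z
  rcases Od_or s with hs1 | ⟨s', hs'⟩
  · rcases Od_or t with ht1 | ⟨t', ht'⟩
    · refine ⟨x + z, y, ?_, ?_⟩
      · obtain ⟨r, hr⟩ := hs1.add ht1
        refine ⟨r, ?_⟩
        simp only [map_add, LinearMap.add_apply]
        rw [h.symm z x, (hS z hz).1, hs, ht]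
        linear_combination 2 * hr
      · simp only [map_add, LinearMap.add_apply]
        rw [h.symm z y, (hS z hz).2, add_zero]
        exact hxy
    · exact ⟨z, w, ⟨t', by rw [ht, ht']; ring⟩, hzw⟩
  · exact ⟨x, y, ⟨s', by rw [hs, hs']; ring⟩, hxy⟩

lemma rank_five [Module.Free ℤ_[2] M] [Module.Finite ℤ_[2] M] {b : BilinForm ℤ_[2] M}
    (h : Good b) (h5 : 5 ≤ finrank ℤ_[2] M) :
    ∃ S : Submodule ℤ_[2] M, Good (rs b S) ∧
      finrank ℤ_[2] S + 2 = finrank ℤ_[2] M ∧ Iso (os (mf mU) (rs b S)) b := by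
  obtain ⟨x, y, hxy⟩ := h.exists_unit (by omega)
  obtain ⟨S, hS, hG, hr, -⟩ := split_plane h x y !![b x x, b x y; b x y, b y y]
    (det_pair h x y hxy) rfl rfl rfl rfl
  obtain ⟨z, w, hzw⟩ := hG.exists_unit (by omega)
  obtain ⟨x₀, y₀, h1, h2⟩ := exists_isotropic h x y hxy S hS z w z.2 w.2 hzw
  exact splitU h x₀ y₀ h1 h2

/-- a square of a unit is 1 mod 8 -/
lemma Od.sq {x : ℤ_[2]} (h : Od x) : ∃ t, x ^ 2 = 1 + 8 * t := by
  obtain ⟨t, rfl⟩ := h
  have h1 : (2 : ℤ_[2]) ∣ t * (t + 1) := by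
    rcases Od_or t with ht | ht
    · exact Dvd.dvd.mul_left (ht.add ⟨0, by ring⟩) _
    · exact Dvd.dvd.mul_right ht _
  obtain ⟨s, hs⟩ := h1
  exact ⟨s, by linear_combination 4 * hs⟩

lemma det_mU : mU.det = -1 := by
  unfold mU; rw [Matrix.det_fin_two_of]; ring

lemma det_mV : mV.det = 3 := by
  unfold mV; rw [Matrix.det_fin_two_of]; ring

lemma hasDet_2V : HasDet ((2 : ℤ_[2]) • mf mV) 12 := by
  have h1 : (2 : ℤ_[2]) • mf mV = mf ((2 : ℤ_[2]) • mV) := by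
    unfold mf
    rw [map_smul]
  rw [h1]
  have h2 : ((2 : ℤ_[2]) • mV).det = 12 := by
    rw [Matrix.det_smul, det_mV, Fintype.card_fin]
    norm_num
  rw [← h2]
  exact hasDet_mf _

/-- the determinant of a unimodular plane -/
lemma rank_two_det [Module.Free ℤ_[2] M] [Module.Finite ℤ_[2] M] {b : BilinForm ℤ_[2] M}
    (h : Good b) (h2 : finrank ℤ_[2] M = 2) (hu : ∃ x y, Od (b x y)) :
    ∃ d, IsUnit d ∧ HasDet b d := by
  obtain ⟨x, y, hxy⟩ := hu
  obtain ⟨S, hS, hG, hr, hi⟩ := split_plane h x y !![b x x, b x y; b x y, b y y]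
    (det_pair h x y hxy) rfl rfl rfl rfl
  exact ⟨_, det_pair h x y hxy, (hasDet_mf _).iso (iso_of_zero (by omega) hi)⟩

/-- good forms of rank four -/
lemma rank_four [Module.Free ℤ_[2] M] [Module.Finite ℤ_[2] M] {b : BilinForm ℤ_[2] M}
    (h : Good b) (h4 : finrank ℤ_[2] M = 4) (d : ℤ_[2]) (hd : HasDet b d)
    (h2 : (2 : ℤ_[2]) ∣ d) :
    Iso (os (mf mU) ((2 : ℤ_[2]) • mf mV)) b ∨ Iso (os (mf mV) ((2 : ℤ_[2]) • mf mV)) b := by
  by_cases hiso : ∃ x₀ y₀ : M, (4 : ℤ_[2]) ∣ b x₀ x₀ ∧ Od (b x₀ y₀)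
  · left
    obtain ⟨x₀, y₀, h5, h6⟩ := hiso
    obtain ⟨S, hG, hr, hi⟩ := splitU h x₀ y₀ h5 h6
    rcases rank_two hG (by omega) with hu | hV
    · exfalso
      obtain ⟨d', hd', hD⟩ := rank_two_det hG (by omega) hu
      have h7 := ((hasDet_mf mU).os hD).iso hi
      obtain ⟨u, hu, he⟩ := h7.unique hd
      have h8 : IsUnit d := by
        rw [he, det_mU]
        exact ((isUnit_one.neg).mul hd').mul (hu.pow 2)
      exact (od_of_isUnit h8).not_dvd h2
    · exact ((Iso.refl _).os hV).trans hi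
  · right
    obtain ⟨x, y, hxy⟩ := h.exists_unit (by omega)
    obtain ⟨S, hS, hG, hr, hi⟩ := split_plane h x y !![b x x, b x y; b x y, b y y]
      (det_pair h x y hxy) rfl rfl rfl rfl
    rcases rank_two hG (by omega) with ⟨z, w, hzw⟩ | hV
    · exact absurd (exists_isotropic h x y hxy S hS z w z.2 w.2 hzw) hiso
    · refine Iso.trans (Iso.os ?_ hV) hi
      obtain ⟨s, hs⟩ := h.even x
      obtain ⟨t, ht⟩ := h.even y
      have hs1 : Od s := by
        rcases Od_or s with h1 | ⟨s', hs'⟩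
        · exact h1
        · exact absurd ⟨x, y, ⟨s', by rw [hs, hs']; ring⟩, hxy⟩ hiso
      have ht1 : Od t := by
        rcases Od_or t with h1 | ⟨t', ht'⟩
        · exact h1
        · exact absurd ⟨y, x, ⟨t', by rw [ht, ht']; ring⟩, by rw [h.symm]; exact hxy⟩ hiso
      rw [hs, ht]
      exact (plane_mV s (b x y) t hs1 hxy ht1).symm

/-- the determinant decides -/
lemma rank_four_det [Module.Free ℤ_[2] M] [Module.Finite ℤ_[2] M] {b : BilinForm ℤ_[2] M}
    (h : Good b) (h4 : finrank ℤ_[2] M = 4) (u : ℤ_[2]) (hu : IsUnit u)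
    (hd : HasDet b (4 * u ^ 2)) : Iso (os (mf mV) ((2 : ℤ_[2]) • mf mV)) b := by
  rcases rank_four h h4 _ hd ⟨2 * u ^ 2, by ring⟩ with hi | hi
  · exfalso
    have h7 := ((hasDet_mf mU).os hasDet_2V).iso hi
    rw [det_mU] at h7
    obtain ⟨w, hw, he⟩ := h7.unique hd
    obtain ⟨s, hs⟩ := (od_of_isUnit hu).sq
    obtain ⟨t, ht⟩ := (od_of_isUnit hw).sq
    rw [hs, ht] at he
    refine not_two_dvd_one ⟨-(s + 3 * t), ?_⟩
    have h8 : (16 : ℤ_[2]) * 1 = 16 * (2 * (-(s + 3 * t))) := by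
      linear_combination he
    exact mul_left_cancel₀ (by norm_num) h8
  · exact hi

/-- the determinant is four times a unit -/
lemma det_four : ∀ (k : ℕ) (M : Type) [AddCommGroup M] [Module ℤ_[2] M] [Module.Free ℤ_[2] M]
    [Module.Finite ℤ_[2] M] (b : BilinForm ℤ_[2] M), Good b → finrank ℤ_[2] M = 2 * k + 4 →
    ∀ d, HasDet b d → (2 : ℤ_[2]) ∣ d → ∃ u, IsUnit u ∧ d = 4 * u := by
  intro k
  induction k with
  | zero =>
    intro M _ _ _ _ b h h4 d hd h2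
    rcases rank_four h (by omega) d hd h2 with hi | hi
    · have h7 := ((hasDet_mf mU).os hasDet_2V).iso hi
      obtain ⟨w, hw, he⟩ := h7.unique hd
      refine ⟨-1 * 3 * w ^ 2, ?_, ?_⟩
      · exact Od.isUnit (od_of_isUnit (((isUnit_one.neg).mul
          (Od.isUnit ⟨1, by ring⟩)).mul (hw.pow 2)))
      · rw [he, det_mU]; ring
    · have h7 := ((hasDet_mf mV).os hasDet_2V).iso hi
      obtain ⟨w, hw, he⟩ := h7.unique hd
      refine ⟨3 * 3 * w ^ 2, ?_, ?_⟩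
      · exact ((Od.isUnit ⟨1, by ring⟩ : IsUnit (3 : ℤ_[2])).mul
          (Od.isUnit ⟨1, by ring⟩)).mul (hw.pow 2)
      · rw [he, det_mV]; ring
  | succ k ih =>
    intro M _ _ _ _ b h h4 d hd h2
    obtain ⟨S, hG, hr, hi⟩ := rank_five h (by omega)
    have hD : HasDet (rs b S) (Matrix.of fun i j =>
      rs b S (Module.finBasis ℤ_[2] S i) (Module.finBasis ℤ_[2] S j)).det :=
      ⟨_, inferInstance, inferInstance, _, rfl⟩
    have h7 := ((hasDet_mf mU).os hD).iso hi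
    obtain ⟨w, hw, he⟩ := h7.unique hd
    have h8 : (2 : ℤ_[2]) ∣ (Matrix.of fun i j =>
      rs b S (Module.finBasis ℤ_[2] S i) (Module.finBasis ℤ_[2] S j)).det := by
      rcases Od_or (Matrix.of fun i j =>
        rs b S (Module.finBasis ℤ_[2] S i) (Module.finBasis ℤ_[2] S j)).det with h9 | h9
      · exfalso
        have h10 : IsUnit d := by
          rw [he, det_mU]
          exact ((isUnit_one.neg).mul h9.isUnit).mul (hw.pow 2)
        exact (od_of_isUnit h10).not_dvd h2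
      · exact h9
    obtain ⟨u, hu, hu2⟩ := ih S (rs b S) hG (by omega) _ hD h8
    refine ⟨-1 * u * w ^ 2, ((isUnit_one.neg).mul hu).mul (hw.pow 2), ?_⟩
    rw [he, hu2, det_mU]; ring

/-- **classification** -/
theorem good_iso : ∀ (k : ℕ) (M N : Type) [AddCommGroup M] [Module ℤ_[2] M]
    [Module.Free ℤ_[2] M] [Module.Finite ℤ_[2] M] [AddCommGroup N] [Module ℤ_[2] N]
    [Module.Free ℤ_[2] N] [Module.Finite ℤ_[2] N] (b : BilinForm ℤ_[2] M)
    (c : BilinForm ℤ_[2] N), Good b → Good c → finrank ℤ_[2] M = 2 * k + 4 →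
    finrank ℤ_[2] N = 2 * k + 4 → (∃ u, IsUnit u ∧ HasDet b ((-1) ^ k * 4 * u ^ 2)) →
    (∃ u, IsUnit u ∧ HasDet c ((-1) ^ k * 4 * u ^ 2)) → Iso b c := by
  intro k
  induction k with
  | zero =>
    intro M N _ _ _ _ _ _ _ _ b c hb hc h4 h4' ⟨u, hu, hd⟩ ⟨u', hu', hd'⟩
    rw [pow_zero, one_mul] at hd hd'
    exact (rank_four_det hb (by omega) u hu hd).symm.trans
      (rank_four_det hc (by omega) u' hu' hd')
  | succ k ih =>
    intro M N _ _ _ _ _ _ _ _ b c hb hc h4 h4' hd hd'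
    obtain ⟨S, hG, hr, hi⟩ := rank_five hb (by omega)
    obtain ⟨S', hG', hr', hi'⟩ := rank_five hc (by omega)
    have aux : ∀ (L : Type) [AddCommGroup L] [Module ℤ_[2] L]
        [Module.Free ℤ_[2] L] [Module.Finite ℤ_[2] L] (b : BilinForm ℤ_[2] L)
        (S : Submodule ℤ_[2] L), Iso (os (mf mU) (rs b S)) b →
        (∃ u, IsUnit u ∧ HasDet b ((-1) ^ (k+1) * 4 * u ^ 2)) →
        ∃ u, IsUnit u ∧ HasDet (rs b S) ((-1) ^ k * 4 * u ^ 2) := by
      intro L _ _ _ _ b S hi ⟨u, hu, hd⟩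
      have hD : HasDet (rs b S) (Matrix.of fun i j =>
        rs b S (Module.finBasis ℤ_[2] S i) (Module.finBasis ℤ_[2] S j)).det :=
        ⟨_, inferInstance, inferInstance, _, rfl⟩
      have h7 := ((hasDet_mf mU).os hD).iso hi
      obtain ⟨w, hw, he⟩ := hd.unique h7
      refine ⟨u * w, hu.mul hw, ?_⟩
      have h8 : (-1) ^ k * 4 * (u * w) ^ 2 = (Matrix.of fun i j =>
        rs b S (Module.finBasis ℤ_[2] S i) (Module.finBasis ℤ_[2] S j)).det := by
        rw [det_mU] at he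
        rw [pow_succ] at he
        linear_combination he
      rw [h8]
      exact hD
    have := ih S S' (rs b S) (rs c S') hG hG' (by omega) (by omega) (aux M b S hi hd)
      (aux N c S' hi' hd')
    exact hi.symm.trans (((Iso.refl _).os this).trans hi')

end two

end

end Pool.Agent.Y359.RL
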